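import Pool.Agent.H71.PM.Nms
import Pool.Agent.H71.HM.PsdB

/-!
# AD: the family `A` is almost disjoint in the quotients
-/

set_option autoImplicit false

namespace PM

open BV PK HM PSI

variable {B : Type} [CompleteBooleanAlgebra B]

theorem hv_isReal (x : BSet B) : HV fun U : UF B => IsReal (MU.E U) (om U) (MU.mk U x) := by
  unfold IsReal
  exact HV.all fun z => (HV.mem z x).imp (hv_om z)

theorem hv_lt_om (m n : BSet B) : HV fun U : UF B => MU.E U (MU.mk U m) (MU.mk U n) := HV.mem m n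

theorem hv_unbdd (x : BSet B) : HV fun U : UF B => Unbdd (MU.E U) (om U) (MU.mk U x) := by
  unfold Unbdd
  exact HV.all fun m => (hv_om m).imp (HV.ex fun n => (hv_om n).and ((HV.mem m n).and (HV.mem n x)))

theorem unbdd_A {K : Type} (A : K → ℕ → B) (hinf : ∀ x m, (⨆ k, ⨆ _ : m ≤ k, A x k) = ⊤)
    (U : UF B) (x : K) : Unbdd (MU.E U) (om U) (MU.mk U (rnm (A x))) := by
  refine unbdd_rnm U (A x) ?_
  have h : (⨅ m : ℕ, ⨆ n, ⨆ (_ : m < n), A x n) = ⊤ := by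
    rw [iInf_eq_top]
    exact fun m => hinf x (m + 1)
  rw [h]
  exact U.top_mem

/-- different members have a bounded intersection -/
theorem ad_A {K : Type} (A : K → ℕ → B)
    (had : ∀ x y, x ≠ y → (⨆ m, ⨅ k, ⨅ _ : m ≤ k, (A x k ⊓ A y k)ᶜ) = ⊤) (U : UF B) (x y : K)
    (hxy : x ≠ y) : ∃ m, MU.E U m (om U) ∧ ∀ n, MU.E U n (MU.mk U (rnm (A x))) →
      MU.E U n (MU.mk U (rnm (A y))) → ¬ MU.E U m n := by
  have hval : HV fun U : UF B => ∃ m, MU.E U m (om U) ∧ ∀ n, MU.E U n (MU.mk U (rnm (A x))) →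
      MU.E U n (MU.mk U (rnm (A y))) → ¬ MU.E U m n :=
    HV.ex fun m => (hv_om m).and (HV.all fun n => (HV.mem n _).imp ((HV.mem n _).imp
      (HV.mem m n).not))
  refine hval.sup (fun m => ⨅ k, ⨅ _ : m ≤ k, (A x k ⊓ A y k)ᶜ) ⊤ ?_ U U.top_mem
    (by rw [had x y hxy]; exact U.top_mem)
  intro m V _ hV
  refine ⟨nn V m, E_nn_om V m, fun n hn => ?_⟩
  refine ball_w (Q := fun V n => MU.E V n (MU.mk V (rnm (A x))) → MU.E V n (MU.mk V (rnm (A y))) →
      ¬ MU.E V (nn V m) n) (fun n => (HV.mem n _).imp ((HV.mem n _).imp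
      (HV.mem (chk B (m : Ordinal.{0})) n).not)) (⨅ k, ⨅ _ : m ≤ k, (A x k ⊓ A y k)ᶜ) ?_ V hV n
      (isReal_rnm V (A x) n hn) hn
  intro V hV n h1 h2 h3
  rw [E_rnm] at h1 h2
  rw [E_nn] at h3
  have h4 := V.mem_of_le hV ((iInf_le _ n).trans (iInf_le _ h3.le))
  exact V.compl_mem_iff.1 h4 (V.inf_mem h1 h2)

theorem isAD_An {K : Type} (A : K → ℕ → B) (hinf : ∀ x m, (⨆ k, ⨆ _ : m ≤ k, A x k) = ⊤)
    (had : ∀ x y, x ≠ y → (⨆ m, ⨅ k, ⨅ _ : m ≤ k, (A x k ⊓ A y k)ᶜ) = ⊤) (U : UF B) :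
    IsAD (MU.E U) (om U) (MU.mk U (An A)) := by
  refine ⟨fun a ha => ?_, fun a b ha hb hab => ?_⟩
  · refine ball_An A (Q := fun U a => IsReal (MU.E U) (om U) a ∧ Unbdd (MU.E U) (om U) a)
      (fun a => (hv_isReal a).and (hv_unbdd a)) ⊤ ?_ U U.top_mem a ha
    exact fun V _ x => ⟨isReal_rnm V (A x), unbdd_A A hinf V x⟩
  · refine ball_An A (Q := fun U a => ∀ b, MU.E U b (MU.mk U (An A)) → a ≠ b → ∃ m, MU.E U m (om U) ∧
      ∀ n, MU.E U n a → MU.E U n b → ¬ MU.E U m n) (fun a => ?_) ⊤ ?_ U U.top_mem a ha b hb hab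
    · exact HV.all fun b => (HV.mem b _).imp ((HV.eq a b).not.imp (HV.ex fun m => (hv_om m).and
        (HV.all fun n => (HV.mem n a).imp ((HV.mem n b).imp (HV.mem m n).not))))
    · intro V _ x b hb
      refine ball_An A (Q := fun V b => MU.mk V (rnm (A x)) ≠ b → ∃ m, MU.E V m (om V) ∧
        ∀ n, MU.E V n (MU.mk V (rnm (A x))) → MU.E V n b → ¬ MU.E V m n) (fun b => ?_) ⊤ ?_ V
        V.top_mem b hb
      · exact (HV.eq _ b).not.imp (HV.ex fun m => (hv_om m).and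
          (HV.all fun n => (HV.mem n _).imp ((HV.mem n b).imp (HV.mem m n).not)))
      · intro V _ y hxy
        exact ad_A A had V x y (fun h => hxy (by rw [h]))

end PM
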