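import Pool.Agent.H71.HM.Defs

/-!
# Definitions for the statement: almost disjoint families, the space `Ψ(𝒜)`, star-Menger, the
dominating number, inside a model of set theory and in Lean

`(M, E)` is a structure for the language of set theory. `IsZFC`, `App` (`⟨x, y⟩ ∈ f`) are from
`Pool.Agent.H26.BV.Defs`, `IsFin` from `Pool.Agent.H26.BV.Stmt`, `IsOmega` from
`Pool.Agent.H92.PK.Defs`, `IsReal` (subset of `ω = w`), `Unbdd` (contains arbitrarily large natural
numbers) from `Pool.Agent.H71.HM.Defs`.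
-/

set_option autoImplicit false

universe v

namespace PM

open BV HM

section Structures

variable {M : Type v}

/-- `A` is an almost disjoint family of infinite subsets of `ω = w` -/
def IsAD (E : M → M → Prop) (w A : M) : Prop :=
  (∀ a, E a A → IsReal E w a ∧ Unbdd E w a) ∧
  ∀ a b, E a A → E b A → a ≠ b → ∃ m, E m w ∧ ∀ n, E n a → E n b → ¬ E m n

/-- `x` is a point of the space `Ψ(A)`, whose underlying set is `ω ∪ A` -/
def Pt (E : M → M → Prop) (w A x : M) : Prop := E x w ∨ E x A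

/-- `U` is an open subset of `Ψ(A)`: all elements of `U` are points, and if `a ∈ A` belongs to `U`
then all but finitely many (all sufficiently large) elements of `a` belong to `U` -/
def IsOpn (E : M → M → Prop) (w A U : M) : Prop :=
  (∀ x, E x U → Pt E w A x) ∧
  ∀ a, E a A → E a U → ∃ m, E m w ∧ ∀ n, E n a → E m n → E n U

/-- `C` is an open cover of `Ψ(A)` -/
def IsCov (E : M → M → Prop) (w A C : M) : Prop :=
  (∀ U, E U C → IsOpn E w A U) ∧ ∀ x, Pt E w A x → ∃ U, E U C ∧ E x U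

/-- `s` is a sequence: for every `n ∈ ω` there is exactly one `C` with `s(n) = C` -/
def IsSeq (E : M → M → Prop) (w s : M) : Prop :=
  ∀ n, E n w → ∃ C, App E s n C ∧ ∀ D, App E s n D → D = C

/-- `U` and `V` have a common element -/
def Meet (E : M → M → Prop) (U V : M) : Prop := ∃ y, E y U ∧ E y V

/-- `x` belongs to the star of the union of `t(n)` with respect to the cover `s(n)`: some `U ∈ s(n)`
contains `x` and meets some `V ∈ t(n)` -/
def InStar (E : M → M → Prop) (s t n x : M) : Prop :=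
  ∃ C F U V, App E s n C ∧ App E t n F ∧ E U C ∧ E x U ∧ E V F ∧ Meet E U V

/-- `t(n)` is a finite subset of `s(n)` -/
def FinSub (E : M → M → Prop) (s t n : M) : Prop :=
  ∀ F, App E t n F → IsFin E F ∧ ∀ C, App E s n C → ∀ V, E V F → E V C

/-- `s` is a sequence of open covers of `Ψ(A)` -/
def IsCovSeq (E : M → M → Prop) (w A s : M) : Prop :=
  IsSeq E w s ∧ ∀ n, E n w → ∀ C, App E s n C → IsCov E w A C

/-- `Ψ(A)` is star-Menger: for every sequence `s` of open covers there is a sequence `t` such that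
`t(n)` is a finite subset of `s(n)` for all `n ∈ ω` and the stars of the unions of the `t(n)` with respect to
`s(n)` cover the space -/
def StarMenger (E : M → M → Prop) (w A : M) : Prop :=
  ∀ s, IsCovSeq E w A s → ∃ t, IsSeq E w t ∧ (∀ n, E n w → FinSub E s t n) ∧
    ∀ x, Pt E w A x → ∃ n, E n w ∧ InStar E s t n x

/-- `g` is a function from `ω` to `ω` -/
def IsFn (E : M → M → Prop) (w g : M) : Prop :=
  ∀ n, E n w → ∃ k, E k w ∧ App E g n k ∧ ∀ l, App E g n l → l = k

/-- `g(n) ≤ h(n)` for all but finitely many `n ∈ ω` -/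
def EvLe (E : M → M → Prop) (w g h : M) : Prop :=
  ∃ m, E m w ∧ ∀ n, E n w → E m n → ∀ k l, App E g n k → App E h n l → E k l ∨ k = l

/-- `D` is a dominating family of functions from `ω` to `ω` -/
def IsDomFam (E : M → M → Prop) (w D : M) : Prop :=
  (∀ h, E h D → IsFn E w h) ∧ ∀ g, IsFn E w g → ∃ h, E h D ∧ EvLe E w g h

/-- the cardinality of `Ψ(A)` is at least the dominating number `𝔡`: some function `f` maps (a set of)
points of `Ψ(A)` onto a dominating family `D` -/
def DomLe (E : M → M → Prop) (w A : M) : Prop :=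
  ∃ D f, IsDomFam E w D ∧ (∀ x h h', App E f x h → App E f x h' → h = h') ∧
    ∀ h, E h D → ∃ x, Pt E w A x ∧ App E f x h

/-- `w` is `ω`, `A` is an almost disjoint family, `Ψ(A)` is star-Menger and `|Ψ(A)| ≥ 𝔡` -/
structure IsExample (E : M → M → Prop) (w A : M) : Prop where
  omega : PK.IsOmega E w
  ad : IsAD E w A
  star : StarMenger E w A
  card : DomLe E w A

end Structures

/-! ## The same in Lean -/

/-- almost disjoint families of infinite sets of natural numbers -/
def IsADFam (𝒜 : Set (Set ℕ)) : Prop :=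
  (∀ a ∈ 𝒜, a.Infinite) ∧ ∀ a ∈ 𝒜, ∀ b ∈ 𝒜, a ≠ b → (a ∩ b).Finite

/-- the points of `Ψ(𝒜)` -/
def Psi (𝒜 : Set (Set ℕ)) : Type := ℕ ⊕ 𝒜

/-- the topology of `Ψ(𝒜)`: the points `n ∈ ℕ` are isolated, and the sets `{a} ∪ (a \ F)`, `F` finite, are a base of
neighbourhoods of the point `a ∈ 𝒜` -/
instance (𝒜 : Set (Set ℕ)) : TopologicalSpace (Psi 𝒜) where
  IsOpen U := ∀ a : 𝒜, Sum.inr a ∈ U → {n | n ∈ a.1 ∧ Sum.inl n ∉ U}.Finite
  isOpen_univ := fun a _ => Set.Finite.subset Set.finite_empty fun _ hn => hn.2 (Set.mem_univ _)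
  isOpen_inter := fun U V hU hV a ha => by
    refine ((hU a ha.1).union (hV a ha.2)).subset ?_
    rintro n ⟨h1, h2⟩
    by_cases h : (Sum.inl n : Psi 𝒜) ∈ U
    · exact Or.inr ⟨h1, fun h3 => h2 ⟨h, h3⟩⟩
    · exact Or.inl ⟨h1, h⟩
  isOpen_sUnion := fun S hS a ha => by
    obtain ⟨U, hU, haU⟩ := ha
    refine (hS U hU a haU).subset ?_
    rintro n ⟨h1, h2⟩
    exact ⟨h1, fun h => h2 ⟨U, hU, h⟩⟩

/-- the star of the set `S` with respect to the cover `𝒰` -/
def starOf {X : Type} (S : Set X) (𝒰 : Set (Set X)) : Set X := ⋃₀ {U ∈ 𝒰 | (U ∩ S).Nonempty}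

/-- star-Menger spaces -/
def IsStarMenger (X : Type) [TopologicalSpace X] : Prop :=
  ∀ 𝒰 : ℕ → Set (Set X), (∀ n, (∀ U ∈ 𝒰 n, IsOpen U) ∧ ⋃₀ 𝒰 n = Set.univ) →
    ∃ ℱ : ℕ → Set (Set X), (∀ n, (ℱ n).Finite ∧ ℱ n ⊆ 𝒰 n) ∧
      (⋃ n, starOf (⋃₀ ℱ n) (𝒰 n)) = Set.univ

/-- dominating families -/
def IsDominating (D : Set (ℕ → ℕ)) : Prop := ∀ g : ℕ → ℕ, ∃ h ∈ D, ∀ᶠ n in Filter.atTop, g n ≤ h n

/-- the dominating number `𝔡` -/
noncomputable def domNum : Cardinal.{0} := sInf {κ | ∃ D, IsDominating D ∧ Cardinal.mk D = κ}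

end PM
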