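import Pool.Agent.H71.PM.Ad

/-!
# DM: the functions `c β` form a dominating family in the quotients and there is a surjection from the
points of `Ψ(A)` onto it
-/

set_option autoImplicit false

namespace PM

open BV PK HM PSI

variable {B : Type} [CompleteBooleanAlgebra B]

/-- name of the dominating family -/
noncomputable def Dn {Ω : Type} (c : Ω → ℕ → ℕ → B) : BSet B := BSet.mk Ω (fun β => fnn (c β)) fun _ => ⊤

/-- name of the function `A x ↦ c (π x)` -/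
noncomputable def Sn {K Ω : Type} (A : K → ℕ → B) (c : Ω → ℕ → ℕ → B) (π : K → Ω) : BSet B :=
  BSet.mk K (fun x => opr (rnm (A x)) (fnn (c (π x)))) fun _ => ⊤

theorem hv_evLe (g h : BSet B) : HV fun U : UF B => EvLe (MU.E U) (om U) (MU.mk U g) (MU.mk U h) := by
  unfold EvLe
  exact HV.ex fun m => (hv_om m).and (HV.all fun n => (hv_om n).imp ((HV.mem m n).imp
    (HV.all fun k => HV.all fun l => (hv_app g n k).imp ((hv_app h n l).imp
      ((HV.mem k l).or (HV.eq k l))))))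

theorem evLe_fnn (g : BSet B) (z : ℕ → ℕ → B) (hz : ∀ (U : UF B),
    IsFn (MU.E U) (om U) (MU.mk U g) → ∀ n v, z n v ∈ U →
      App (MU.E U) (MU.mk U g) (nn U n) (nn U v)) (c : ℕ → ℕ → B) (hc : ∀ n, Part (c n)) (m : ℕ)
    (U : UF B) (hg : IsFn (MU.E U) (om U) (MU.mk U g))
    (hU : (⨅ n, ⨅ _ : m ≤ n, ⨆ v, ⨆ w, ⨆ _ : v ≤ w, z n v ⊓ c n w) ∈ U) :
    EvLe (MU.E U) (om U) (MU.mk U g) (MU.mk U (fnn c)) := by
  obtain ⟨b, hb⟩ := hv_isFn g
  refine ⟨nn U m, E_nn_om U m, fun n hn => ?_⟩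
  refine ball_w (Q := fun U n => MU.E U (nn U m) n → ∀ k l, App (MU.E U) (MU.mk U g) n k →
    App (MU.E U) (MU.mk U (fnn c)) n l → MU.E U k l ∨ k = l) (fun n => ?_)
    (b ⊓ ⨅ n, ⨅ _ : m ≤ n, ⨆ v, ⨆ w, ⨆ _ : v ≤ w, z n v ⊓ c n w) ?_ U (U.inf_mem ((hb U).2 hg) hU) n hn
  · exact (HV.mem (chk B (m : Ordinal.{0})) n).imp (HV.all fun k => HV.all fun l =>
      (hv_app g n k).imp ((hv_app _ n l).imp ((HV.mem k l).or (HV.eq k l))))
  intro V hV n hmn
  rw [UF.inf_mem_iff] at hV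
  rw [E_nn] at hmn
  have h1 := V.mem_of_le hV.2 ((iInf_le _ n).trans (iInf_le _ hmn.le))
  have hval : HV fun V : UF B => ∀ k l, App (MU.E V) (MU.mk V g) (nn V n) k →
      App (MU.E V) (MU.mk V (fnn c)) (nn V n) l → MU.E V k l ∨ k = l :=
    HV.all fun k => HV.all fun l => (hv_app g (chk B (n : Ordinal.{0})) k).imp
      ((hv_app _ (chk B (n : Ordinal.{0})) l).imp ((HV.mem k l).or (HV.eq k l)))
  refine hval.sup _ b ?_ V hV.1 h1
  intro v V hbV h2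
  refine hval.sup _ b ?_ V hbV h2
  intro w V hbV h3
  refine hval.sup _ b ?_ V hbV h3
  intro hvw V hbV h4 k l hk hl
  rw [UF.inf_mem_iff] at h4
  have h5 := hz V ((hb V).1 hbV) n v h4.1
  have h6 := (app_fnn V c n w).2 h4.2
  obtain ⟨k', -, -, hk'⟩ := (hb V).1 hbV (nn V n) (E_nn_om V n)
  obtain ⟨l', -, -, hl'⟩ := isFn_fnn c hc V (nn V n) (E_nn_om V n)
  have h7 : k = nn V v := (hk' k hk).trans (hk' _ h5).symm
  have h8 : l = nn V w := (hl' l hl).trans (hl' _ h6).symm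
  subst h7
  subst h8
  rcases lt_or_eq_of_le hvw with h | h
  · exact Or.inl ((E_nn V v w).2 h)
  · exact Or.inr (by rw [h])

theorem isDomFam_Dn {Ω : Type} (c : Ω → ℕ → ℕ → B) (hc : ∀ β n, Part (c β n))
    (hdom : ∀ z : ℕ → ℕ → B, (∀ n, Part (z n)) →
      (⨆ β, ⨆ m, ⨅ n, ⨅ _ : m ≤ n, ⨆ v, ⨆ w, ⨆ _ : v ≤ w, z n v ⊓ c β n w) = ⊤) (U : UF B) :
    IsDomFam (MU.E U) (om U) (MU.mk U (Dn c)) := by
  refine ⟨fun h hh => ?_, fun g hg => ?_⟩
  · exact ball_mk (Q := fun U h => IsFn (MU.E U) (om U) h) hv_isFn ⊤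
      (fun V _ β _ => isFn_fnn (c β) (hc β) V) U U.top_mem h hh
  · obtain ⟨g, rfl⟩ := MU.mk_surj U g
    obtain ⟨b, hb⟩ := hv_isFn g
    obtain ⟨z, hz, hz'⟩ := exists_fnn g
    have hval : HV fun U : UF B => ∃ h, MU.E U h (MU.mk U (Dn c)) ∧
        EvLe (MU.E U) (om U) (MU.mk U g) h :=
      HV.ex fun h => (HV.mem h _).and (hv_evLe g h)
    refine hval.sup _ b ?_ U ((hb U).2 hg) (by rw [hdom z hz]; exact U.top_mem)
    intro β V hbV h1
    refine hval.sup _ b ?_ V hbV h1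
    intro m V hbV h2
    exact ⟨MU.mk V (fnn (c β)), mem_mk (A := fun β => fnn (c β)) (a := fun _ => ⊤) V β V.top_mem,
      evLe_fnn g z hz' (c β) (hc β) m V ((hb V).1 hbV) h2⟩

theorem domLe_An {K Ω : Type} (A : K → ℕ → B) (c : Ω → ℕ → ℕ → B) (π : K → Ω)
    (h : IsPsiAlg B K Ω A c π) (U : UF B) : DomLe (MU.E U) (om U) (MU.mk U (An A)) := by
  refine ⟨MU.mk U (Dn c), MU.mk U (Sn A c π), isDomFam_Dn c h.part_c h.dom U, ?_, ?_⟩
  · intro a f f' h1 h2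
    refine ball_app (Q := fun U a f => ∀ f', App (MU.E U) (MU.mk U (Sn A c π)) a f' → f = f')
      (fun a f => HV.all fun f' => (hv_app _ a f').imp (HV.eq f f')) ⊤ ?_ U U.top_mem a f h1 f' h2
    intro V _ x _ f' h3
    refine ball_app (Q := fun V a f' => MU.mk V (rnm (A x)) = a → MU.mk V (fnn (c (π x))) = f')
      (fun a f => (HV.eq _ a).imp (HV.eq _ f)) ⊤ ?_ V V.top_mem _ f' h3 rfl
    intro V _ y _ h4
    by_cases hxy : x = y
    · rw [hxy]
    · exfalso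
      obtain ⟨m, hm, h5⟩ := ad_A A h.ad V x y hxy
      obtain ⟨n, -, h6, h7⟩ := unbdd_A A h.inf V x m hm
      exact h5 n h7 (h4 ▸ h7) h6
  · intro f hf
    refine ball_mk (Q := fun U f => ∃ x, Pt (MU.E U) (om U) (MU.mk U (An A)) x ∧
      App (MU.E U) (MU.mk U (Sn A c π)) x f) (fun f => ?_) ⊤ ?_ U U.top_mem f hf
    · exact HV.ex fun x => ((hv_om x).or (HV.mem x _)).and (hv_app _ x f)
    · intro V _ β _
      obtain ⟨x, rfl⟩ := h.surj β
      exact ⟨MU.mk V (rnm (A x)), Or.inr (mem_An A V x),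
        app_mk (X := fun x => rnm (A x)) (Y := fun x => fnn (c (π x))) (a := fun _ => ⊤) V x V.top_mem⟩

end PM
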