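import Pool.Agent.H71.HF.Vp
import Pool.Agent.H71.PM.Defs

/-!
# FA: codes of the points of `Ψ(𝒜)`, of sets of points, of covers and of sequences of covers in the
structure `(ZFSet, ∈)`
-/

set_option autoImplicit false

open Cardinal BV PK HM HF

namespace PM

/-- the set of the codes of the members of `𝒜` -/
noncomputable def encF (𝒜 : Set (Set ℕ)) : ZFSet.{0} := ZFSet.range fun a : 𝒜 => enc a.1

theorem mem_encF (𝒜 : Set (Set ℕ)) (x : ZFSet.{0}) : x ∈ encF 𝒜 ↔ ∃ a ∈ 𝒜, x = enc a := by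
  rw [encF, ZFSet.mem_range]
  constructor
  · rintro ⟨a, rfl⟩
    exact ⟨a.1, a.2, rfl⟩
  · rintro ⟨a, ha, rfl⟩
    exact ⟨⟨a, ha⟩, rfl⟩

/-- every set of reals is coded -/
theorem exists_encF (A : ZFSet.{0}) (hA : ∀ a, a ∈ A → IsReal VE omz a) : ∃ 𝒜, A = encF 𝒜 := by
  refine ⟨{a | ∃ x ∈ A, a = dec x}, ?_⟩
  ext x
  rw [mem_encF]
  constructor
  · intro hx
    exact ⟨dec x, ⟨x, hx, rfl⟩, (enc_dec (hA x hx)).symm⟩
  · rintro ⟨a, ⟨y, hy, rfl⟩, rfl⟩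
    rw [enc_dec (hA y hy)]
    exact hy

theorem isAD_V (𝒜 : Set (Set ℕ)) : IsAD VE omz (encF 𝒜) ↔ IsADFam 𝒜 := by
  constructor
  · rintro ⟨h1, h2⟩
    refine ⟨fun a ha => ?_, fun a ha b hb hab => ?_⟩
    · have h := (h1 (enc a) ((mem_encF 𝒜 _).2 ⟨a, ha, rfl⟩)).2
      rwa [unbdd_V, dec_enc] at h
    · obtain ⟨m, hm, h⟩ := h2 (enc a) (enc b) ((mem_encF 𝒜 _).2 ⟨a, ha, rfl⟩)
        ((mem_encF 𝒜 _).2 ⟨b, hb, rfl⟩) (fun h => hab (vp_enc_injective h))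
      obtain ⟨m, rfl⟩ := (mem_omz m).1 hm
      refine (Set.finite_Iic m).subset ?_
      rintro n ⟨hna, hnb⟩
      by_contra hn
      rw [Set.mem_Iic, not_le] at hn
      exact h (num n) ((VDIMA_mem_enc a _).2 ⟨n, hna, rfl⟩) ((VDIMA_mem_enc b _).2 ⟨n, hnb, rfl⟩)
        ((num_mem_num _ _).2 hn)
  · rintro ⟨h1, h2⟩
    refine ⟨fun a ha => ?_, fun a b ha hb hab => ?_⟩
    · obtain ⟨a, ha', rfl⟩ := (mem_encF 𝒜 a).1 ha
      refine ⟨isReal_enc a, ?_⟩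
      rw [unbdd_V, dec_enc]
      exact h1 a ha'
    · obtain ⟨a, ha', rfl⟩ := (mem_encF 𝒜 a).1 ha
      obtain ⟨b, hb', rfl⟩ := (mem_encF 𝒜 b).1 hb
      obtain ⟨m, hm⟩ := (h2 a ha' b hb' fun h => hab (by rw [h])).bddAbove
      refine ⟨num m, (mem_omz _).2 ⟨m, rfl⟩, fun n hna hnb hmn => ?_⟩
      obtain ⟨n, hna', rfl⟩ := (VDIMA_mem_enc a n).1 hna
      obtain ⟨n', hnb', h⟩ := (VDIMA_mem_enc b _).1 hnb
      obtain rfl := VDIMA_num_inj h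
      exact absurd ((num_mem_num _ _).1 hmn) (not_lt.2 (hm ⟨hna', hnb'⟩))

section

variable (𝒜 : Set (Set ℕ))

/-- the code of a point -/
noncomputable def pt : Psi 𝒜 → ZFSet.{0} := Sum.elim num fun a => enc a.1

variable {𝒜}

theorem pt_injective (h𝒜 : ∀ a ∈ 𝒜, a.Infinite) : Function.Injective (pt 𝒜) := by
  have key : ∀ (n : ℕ) (a : 𝒜), num n ≠ enc a.1 := by
    intro n a h
    refine h𝒜 a.1 a.2 ((Set.finite_Iio n).subset fun k hk => ?_)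
    have h1 : num k ∈ num n := by
      rw [h]
      exact (VDIMA_mem_enc a.1 _).2 ⟨k, hk, rfl⟩
    exact (num_mem_num _ _).1 h1
  rintro (n | a) (m | b) h
  · rw [VDIMA_num_inj (show num n = num m from h)]
  · exact absurd (show num n = enc b.1 from h) (key n b)
  · exact absurd (show num m = enc a.1 from h.symm) (key m a)
  · rw [Subtype.ext (vp_enc_injective (show enc a.1 = enc b.1 from h))]

theorem pt_V (x : ZFSet.{0}) : Pt VE omz (encF 𝒜) x ↔ ∃ p : Psi 𝒜, x = pt 𝒜 p := by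
  constructor
  · rintro (h | h)
    · obtain ⟨n, rfl⟩ := (mem_omz x).1 h
      exact ⟨Sum.inl n, rfl⟩
    · obtain ⟨a, ha, rfl⟩ := (mem_encF 𝒜 x).1 h
      exact ⟨Sum.inr ⟨a, ha⟩, rfl⟩
  · rintro ⟨p, rfl⟩
    rcases p with n | a
    · exact Or.inl ((mem_omz _).2 ⟨n, rfl⟩)
    · exact Or.inr ((mem_encF 𝒜 _).2 ⟨a.1, a.2, rfl⟩)

/-- the code of a set of points -/
noncomputable def encS (U : Set (Psi 𝒜)) : ZFSet.{0} := ZFSet.range fun x : U => pt 𝒜 x.1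

theorem mem_encS (U : Set (Psi 𝒜)) (x : ZFSet.{0}) : x ∈ encS U ↔ ∃ p ∈ U, x = pt 𝒜 p := by
  rw [encS, ZFSet.mem_range]
  constructor
  · rintro ⟨a, rfl⟩
    exact ⟨a.1, a.2, rfl⟩
  · rintro ⟨a, ha, rfl⟩
    exact ⟨⟨a, ha⟩, rfl⟩

theorem pt_mem_encS (h𝒜 : ∀ a ∈ 𝒜, a.Infinite) (U : Set (Psi 𝒜)) (p : Psi 𝒜) :
    pt 𝒜 p ∈ encS U ↔ p ∈ U := by
  rw [mem_encS]
  constructor
  · rintro ⟨q, hq, h⟩
    rwa [pt_injective h𝒜 h]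
  · exact fun h => ⟨p, h, rfl⟩

theorem encS_injective (h𝒜 : ∀ a ∈ 𝒜, a.Infinite) : Function.Injective (encS (𝒜 := 𝒜)) := by
  intro U V h
  ext p
  rw [← pt_mem_encS h𝒜 U, ← pt_mem_encS h𝒜 V, h]

theorem exists_encS (U : ZFSet.{0}) (hU : ∀ x, x ∈ U → Pt VE omz (encF 𝒜) x) :
    ∃ U' : Set (Psi 𝒜), U = encS U' := by
  refine ⟨{p | pt 𝒜 p ∈ U}, ?_⟩
  ext x
  rw [mem_encS]
  constructor
  · intro hx
    obtain ⟨p, rfl⟩ := (pt_V x).1 (hU x hx)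
    exact ⟨p, hx, rfl⟩
  · rintro ⟨p, hp, rfl⟩
    exact hp

theorem isOpn_V (h𝒜 : ∀ a ∈ 𝒜, a.Infinite) (U : Set (Psi 𝒜)) :
    IsOpn VE omz (encF 𝒜) (encS U) ↔ IsOpen U := by
  constructor
  · rintro ⟨-, h⟩ a ha
    obtain ⟨m, hm, h1⟩ := h (enc a.1) ((mem_encF 𝒜 _).2 ⟨a.1, a.2, rfl⟩)
      ((pt_mem_encS h𝒜 U (Sum.inr a)).2 ha)
    obtain ⟨m, rfl⟩ := (mem_omz m).1 hm
    refine (Set.finite_Iic m).subset ?_
    rintro n ⟨hna, hnU⟩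
    by_contra hn
    rw [Set.mem_Iic, not_le] at hn
    exact hnU ((pt_mem_encS h𝒜 U (Sum.inl n)).1
      (h1 (num n) ((VDIMA_mem_enc a.1 _).2 ⟨n, hna, rfl⟩) ((num_mem_num _ _).2 hn)))
  · intro h
    refine ⟨fun x hx => ?_, fun a ha haU => ?_⟩
    · obtain ⟨p, -, rfl⟩ := (mem_encS U x).1 hx
      exact (pt_V _).2 ⟨p, rfl⟩
    · obtain ⟨a, ha', rfl⟩ := (mem_encF 𝒜 a).1 ha
      have h1 := h ⟨a, ha'⟩ ((pt_mem_encS h𝒜 U (Sum.inr ⟨a, ha'⟩)).1 haU)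
      obtain ⟨m, hm⟩ := h1.bddAbove
      refine ⟨num m, (mem_omz _).2 ⟨m, rfl⟩, fun n hna hmn => ?_⟩
      obtain ⟨n, hna', rfl⟩ := (VDIMA_mem_enc a n).1 hna
      by_contra hn
      have h2 : (Sum.inl n : Psi 𝒜) ∉ U := fun h3 => hn ((pt_mem_encS h𝒜 U (Sum.inl n)).2 h3)
      exact absurd ((num_mem_num _ _).1 hmn) (not_lt.2 (hm ⟨hna', h2⟩))

/-- the code of a family of sets of points -/
noncomputable def encC (C : Set (Set (Psi 𝒜))) : ZFSet.{0} := ZFSet.range fun U : C => encS U.1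

theorem mem_encC (C : Set (Set (Psi 𝒜))) (x : ZFSet.{0}) : x ∈ encC C ↔ ∃ U ∈ C, x = encS U := by
  rw [encC, ZFSet.mem_range]
  constructor
  · rintro ⟨a, rfl⟩
    exact ⟨a.1, a.2, rfl⟩
  · rintro ⟨a, ha, rfl⟩
    exact ⟨⟨a, ha⟩, rfl⟩

theorem encS_mem_encC (h𝒜 : ∀ a ∈ 𝒜, a.Infinite) (C : Set (Set (Psi 𝒜))) (U : Set (Psi 𝒜)) :
    encS U ∈ encC C ↔ U ∈ C := by
  rw [mem_encC]
  constructor
  · rintro ⟨q, hq, h⟩
    rwa [encS_injective h𝒜 h]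
  · exact fun h => ⟨U, h, rfl⟩

theorem exists_encC (C : ZFSet.{0}) (hC : ∀ U, U ∈ C → ∀ x, x ∈ U → Pt VE omz (encF 𝒜) x) :
    ∃ C' : Set (Set (Psi 𝒜)), C = encC C' := by
  refine ⟨{U | encS U ∈ C}, ?_⟩
  ext x
  rw [mem_encC]
  constructor
  · intro hx
    obtain ⟨U, rfl⟩ := exists_encS x (hC x hx)
    exact ⟨U, hx, rfl⟩
  · rintro ⟨p, hp, rfl⟩
    exact hp

theorem isCov_V (h𝒜 : ∀ a ∈ 𝒜, a.Infinite) (C : Set (Set (Psi 𝒜))) :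
    IsCov VE omz (encF 𝒜) (encC C) ↔ (∀ U ∈ C, IsOpen U) ∧ ⋃₀ C = Set.univ := by
  constructor
  · rintro ⟨h1, h2⟩
    refine ⟨fun U hU => (isOpn_V h𝒜 U).1 (h1 _ ((encS_mem_encC h𝒜 C U).2 hU)), ?_⟩
    rw [Set.eq_univ_iff_forall]
    intro p
    obtain ⟨U, hU, hpU⟩ := h2 (pt 𝒜 p) ((pt_V _).2 ⟨p, rfl⟩)
    obtain ⟨U, hU', rfl⟩ := (mem_encC C U).1 hU
    exact ⟨U, hU', (pt_mem_encS h𝒜 U p).1 hpU⟩
  · rintro ⟨h1, h2⟩
    refine ⟨fun U hU => ?_, fun x hx => ?_⟩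
    · obtain ⟨U, hU', rfl⟩ := (mem_encC C U).1 hU
      exact (isOpn_V h𝒜 U).2 (h1 U hU')
    · obtain ⟨p, rfl⟩ := (pt_V x).1 hx
      have hp : p ∈ ⋃₀ C := by rw [h2]; exact Set.mem_univ p
      obtain ⟨U, hU, hpU⟩ := hp
      exact ⟨encS U, (encS_mem_encC h𝒜 C U).2 hU, (pt_mem_encS h𝒜 U p).2 hpU⟩

theorem meet_V (h𝒜 : ∀ a ∈ 𝒜, a.Infinite) (U V : Set (Psi 𝒜)) :
    Meet VE (encS U) (encS V) ↔ (U ∩ V).Nonempty := by
  constructor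
  · rintro ⟨y, hyU, hyV⟩
    obtain ⟨p, hp, rfl⟩ := (mem_encS U y).1 hyU
    exact ⟨p, hp, (pt_mem_encS h𝒜 V p).1 hyV⟩
  · rintro ⟨p, hpU, hpV⟩
    exact ⟨pt 𝒜 p, (pt_mem_encS h𝒜 U p).2 hpU, (pt_mem_encS h𝒜 V p).2 hpV⟩

end

/-! ## Sequences -/

/-- the code of a sequence -/
noncomputable def encQ (s : ℕ → ZFSet.{0}) : ZFSet.{0} := ZFSet.range fun n : ℕ => ZFSet.pair (num n) (s n)

theorem app_encQ (s : ℕ → ZFSet.{0}) (n : ℕ) (D : ZFSet.{0}) :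
    App VE (encQ s) (num n) D ↔ D = s n := by
  rw [app_V, encQ, ZFSet.mem_range]
  constructor
  · rintro ⟨m, hm⟩
    obtain ⟨h1, h2⟩ := ZFSet.pair_injective hm
    obtain rfl := VDIMA_num_inj h1
    exact h2.symm
  · rintro rfl
    exact ⟨n, rfl⟩

theorem isSeq_encQ (s : ℕ → ZFSet.{0}) : IsSeq VE omz (encQ s) := by
  intro n hn
  obtain ⟨n, rfl⟩ := (mem_omz n).1 hn
  exact ⟨s n, (app_encQ s n _).2 rfl, fun D hD => (app_encQ s n D).1 hD⟩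

end PM
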