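import Pool.Agent.H71.PM.Fa

/-!
# FC: the dominating number in the structure `(ZFSet, ∈)` and in Lean
-/

set_option autoImplicit false

open Cardinal BV PK HM HF

namespace PM

/-- the code of a function -/
noncomputable def encN (h : ℕ → ℕ) : ZFSet.{0} := encQ fun n => num (h n)

theorem encN_injective : Function.Injective encN := by
  intro g h hgh
  funext n
  have h1 : App VE (encN g) (num n) (num (g n)) := (app_encQ _ n _).2 rfl
  rw [hgh] at h1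
  exact VDIMA_num_inj ((app_encQ _ n _).1 h1)

theorem isFn_encN (h : ℕ → ℕ) : IsFn VE omz (encN h) := by
  intro n hn
  obtain ⟨n, rfl⟩ := (mem_omz n).1 hn
  exact ⟨num (h n), (mem_omz _).2 ⟨_, rfl⟩, (app_encQ _ n _).2 rfl, fun l hl => (app_encQ _ n _).1 hl⟩

theorem exists_fn {g : ZFSet.{0}} (hg : IsFn VE omz g) : ∃ h : ℕ → ℕ, ∀ n l,
    App VE g (num n) l ↔ l = num (h n) := by
  choose k hk1 hk2 hk3 using fun n : ℕ => hg (num n) ((mem_omz _).2 ⟨n, rfl⟩)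
  choose h hh using fun n => (mem_omz (k n)).1 (hk1 n)
  refine ⟨h, fun n l => ⟨fun hl => (hk3 n l hl).trans (hh n), ?_⟩⟩
  rintro rfl
  rw [← hh]
  exact hk2 n

theorem evLe_V {g g' : ZFSet.{0}} {h h' : ℕ → ℕ} (hg : ∀ n l, App VE g (num n) l ↔ l = num (h n))
    (hg' : ∀ n l, App VE g' (num n) l ↔ l = num (h' n)) :
    EvLe VE omz g g' ↔ ∀ᶠ n in Filter.atTop, h n ≤ h' n := by
  rw [Filter.eventually_atTop]
  constructor
  · rintro ⟨m, hm, h1⟩
    obtain ⟨m, rfl⟩ := (mem_omz m).1 hm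
    refine ⟨m + 1, fun n hn => ?_⟩
    rcases h1 (num n) ((mem_omz _).2 ⟨n, rfl⟩) ((num_mem_num _ _).2 hn) _ _ ((hg n _).2 rfl)
      ((hg' n _).2 rfl) with h2 | h2
    · exact ((num_mem_num _ _).1 h2).le
    · exact (VDIMA_num_inj h2).le
  · rintro ⟨m, hm⟩
    refine ⟨num m, (mem_omz _).2 ⟨m, rfl⟩, fun n hn hmn k l hk hl => ?_⟩
    obtain ⟨n, rfl⟩ := (mem_omz n).1 hn
    obtain rfl := (hg n k).1 hk
    obtain rfl := (hg' n l).1 hl
    rcases lt_or_eq_of_le (hm n ((num_mem_num _ _).1 hmn).le) with h1 | h1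
    · exact Or.inl ((num_mem_num _ _).2 h1)
    · exact Or.inr (by rw [h1])

theorem isDominating_univ : IsDominating Set.univ :=
  fun g => ⟨g, Set.mem_univ g, Filter.Eventually.of_forall fun _ => le_rfl⟩

theorem domNum_le {D : Set (ℕ → ℕ)} (hD : IsDominating D) : domNum ≤ #D := csInf_le' ⟨D, hD, rfl⟩

theorem exists_domNum : ∃ D, IsDominating D ∧ #D = domNum :=
  csInf_mem (s := {κ | ∃ D, IsDominating D ∧ #D = κ}) ⟨_, Set.univ, isDominating_univ, rfl⟩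

theorem domLe_V {𝒜 : Set (Set ℕ)} (h𝒜 : ∀ a ∈ 𝒜, a.Infinite) :
    DomLe VE omz (encF 𝒜) ↔ domNum ≤ #(Psi 𝒜) := by
  classical
  constructor
  · rintro ⟨D, f, ⟨hD1, hD2⟩, hf1, hf2⟩
    choose dec' hdec' using fun h : {h : ZFSet.{0} // h ∈ D} => exists_fn (hD1 h.1 h.2)
    -- the function given by a point
    let φ : Psi 𝒜 → (ℕ → ℕ) := fun p =>
      if hp : ∃ h : {h : ZFSet.{0} // h ∈ D}, App VE f (pt 𝒜 p) h.1 then dec' hp.choose else 0
    have hφ : ∀ h : {h : ZFSet.{0} // h ∈ D}, ∃ p, φ p = dec' h := by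
      intro h
      obtain ⟨x, hx, hfx⟩ := hf2 h.1 h.2
      obtain ⟨p, rfl⟩ := (pt_V x).1 hx
      have hp : ∃ h : {h : ZFSet.{0} // h ∈ D}, App VE f (pt 𝒜 p) h.1 := ⟨h, hfx⟩
      refine ⟨p, ?_⟩
      have h1 : hp.choose = h := Subtype.ext (hf1 _ _ _ hp.choose_spec hfx)
      show (if hp : ∃ h : {h : ZFSet.{0} // h ∈ D}, App VE f (pt 𝒜 p) h.1 then dec' hp.choose
        else 0) = dec' h
      rw [dif_pos hp, h1]
    have hdom : IsDominating (Set.range φ) := by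
      intro g
      obtain ⟨h, hh, hgh⟩ := hD2 (encN g) (isFn_encN g)
      obtain ⟨p, hp⟩ := hφ ⟨h, hh⟩
      refine ⟨φ p, ⟨p, rfl⟩, ?_⟩
      rw [hp]
      exact (evLe_V (fun n l => app_encQ _ n l) (hdec' ⟨h, hh⟩)).1 hgh
    exact (domNum_le hdom).trans Cardinal.mk_range_le
  · intro h
    obtain ⟨D, hD, hDc⟩ := exists_domNum
    rw [← hDc] at h
    obtain ⟨i⟩ := h
    obtain ⟨d0, hd0, -⟩ := hD 0
    haveI : Nonempty D := ⟨⟨d0, hd0⟩⟩
    have hinv : ∀ d : D, Function.invFun i (i d) = d := Function.leftInverse_invFun i.injective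
    let φ : Psi 𝒜 → D := Function.invFun i
    refine ⟨ZFSet.range fun d : D => encN d.1,
      ZFSet.range fun p : Psi 𝒜 => ZFSet.pair (pt 𝒜 p) (encN (φ p).1), ⟨fun h hh => ?_,
      fun g hg => ?_⟩, fun x h h' hh hh' => ?_, fun h hh => ?_⟩
    · obtain ⟨d, rfl⟩ := ZFSet.mem_range.1 hh
      exact isFn_encN d.1
    · obtain ⟨g', hg'⟩ := exists_fn hg
      obtain ⟨d, hd, hgd⟩ := hD g'
      exact ⟨encN d, ZFSet.mem_range.2 ⟨⟨d, hd⟩, rfl⟩,
        (evLe_V hg' (fun n l => app_encQ _ n l)).2 hgd⟩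
    · rw [app_V] at hh hh'
      obtain ⟨p, hp⟩ := ZFSet.mem_range.1 hh
      obtain ⟨q, hq⟩ := ZFSet.mem_range.1 hh'
      obtain ⟨h1, h2⟩ := ZFSet.pair_injective hp
      obtain ⟨h3, h4⟩ := ZFSet.pair_injective hq
      have h5 : p = q := pt_injective h𝒜 (h1.trans h3.symm)
      rw [← h2, ← h4, h5]
    · obtain ⟨d, rfl⟩ := ZFSet.mem_range.1 hh
      refine ⟨pt 𝒜 (i d), (pt_V _).2 ⟨_, rfl⟩, ?_⟩
      rw [app_V]
      refine ZFSet.mem_range.2 ⟨i d, ?_⟩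
      show ZFSet.pair (pt 𝒜 (i d)) (encN (Function.invFun i (i d)).1) = _
      rw [hinv]

end PM
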