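import Pool.Agent.H71.PM.Fb
import Pool.Agent.H71.PM.Fc

/-!
# FAITH: in the real world (the structure `(ZFSet, ∈)`) the sentence there are `w`, `A` with
`IsExample w A` says that there is an almost disjoint family `𝒜` such that `Ψ(𝒜)` is star-Menger and
`𝔡 ≤ |Ψ(𝒜)|`
-/

set_option autoImplicit false

open Cardinal BV PK HM HF

namespace PM

theorem example_iff : (∃ w A : ZFSet.{0}, IsExample VE w A) ↔
    ∃ 𝒜 : Set (Set ℕ), IsADFam 𝒜 ∧ IsStarMenger (Psi 𝒜) ∧ domNum ≤ #(Psi 𝒜) := by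
  constructor
  · rintro ⟨w, A, h1, h2, h3, h4⟩
    have hw : w = omz := (isOmega_V w).1 h1
    subst hw
    obtain ⟨𝒜, rfl⟩ := exists_encF A fun a ha => (h2.1 a ha).1
    have h5 := (isAD_V 𝒜).1 h2
    exact ⟨𝒜, h5, (starMenger_V h5.1).1 h3, (domLe_V h5.1).1 h4⟩
  · rintro ⟨𝒜, h1, h2, h3⟩
    exact ⟨omz, encF 𝒜, (isOmega_V omz).2 rfl, (isAD_V 𝒜).2 h1, (starMenger_V h1.1).2 h2,
      (domLe_V h1.1).2 h3⟩

end PM
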