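import Pool.Agent.H71.PM.Fa

/-!
# FB: star-Menger in the structure `(ZFSet, ∈)` and in Lean
-/

set_option autoImplicit false

open Cardinal BV PK HM HF

namespace PM

theorem starMenger_V {𝒜 : Set (Set ℕ)} (h𝒜 : ∀ a ∈ 𝒜, a.Infinite) :
    StarMenger VE omz (encF 𝒜) ↔ IsStarMenger (Psi 𝒜) := by
  constructor
  · intro h 𝒰 h𝒰
    obtain ⟨t, ht1, ht2, ht3⟩ := h (encQ fun n => encC (𝒰 n)) ⟨isSeq_encQ _, fun n hn C hC => by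
      obtain ⟨n, rfl⟩ := (mem_omz n).1 hn
      rw [app_encQ] at hC
      subst hC
      exact (isCov_V h𝒜 _).2 (h𝒰 n)⟩
    choose F hF1 hF2 using fun n : ℕ => ht1 (num n) ((mem_omz _).2 ⟨n, rfl⟩)
    have hF3 : ∀ n, IsFin VE (F n) ∧ ∀ W, W ∈ F n → W ∈ encC (𝒰 n) := fun n => by
      obtain ⟨h1, h2⟩ := ht2 (num n) ((mem_omz _).2 ⟨n, rfl⟩) (F n) (hF1 n)
      exact ⟨h1, fun W hW => h2 _ ((app_encQ _ n _).2 rfl) W hW⟩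
    refine ⟨fun n => {U | encS U ∈ F n}, fun n => ⟨?_, fun U hU => ?_⟩, ?_⟩
    · exact ((isFin_V (F n)).1 (hF3 n).1).preimage (encS_injective h𝒜).injOn
    · exact (encS_mem_encC h𝒜 _ U).1 ((hF3 n).2 _ hU)
    · rw [Set.eq_univ_iff_forall]
      intro p
      obtain ⟨n, hn, C, F', U, W, hC, hF', hUC, hpU, hWF, hUW⟩ := ht3 (pt 𝒜 p) ((pt_V _).2 ⟨p, rfl⟩)
      obtain ⟨n, rfl⟩ := (mem_omz n).1 hn
      rw [app_encQ] at hC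
      subst hC
      obtain rfl := hF2 n F' hF'
      obtain ⟨U, hU', rfl⟩ := (mem_encC _ U).1 hUC
      obtain ⟨W, hW', rfl⟩ := (mem_encC _ W).1 ((hF3 n).2 W hWF)
      obtain ⟨q, hqU, hqW⟩ := (meet_V h𝒜 U W).1 hUW
      exact Set.mem_iUnion.2 ⟨n, U, ⟨hU', q, hqU, W, hWF, hqW⟩, (pt_mem_encS h𝒜 U p).1 hpU⟩
  · intro h s hs
    obtain ⟨hs1, hs2⟩ := hs
    choose C hC1 hC2 using fun n : ℕ => hs1 (num n) ((mem_omz _).2 ⟨n, rfl⟩)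
    have hC3 : ∀ n, IsCov VE omz (encF 𝒜) (C n) := fun n =>
      hs2 (num n) ((mem_omz _).2 ⟨n, rfl⟩) (C n) (hC1 n)
    choose 𝒰 h𝒰 using fun n : ℕ => exists_encC (𝒜 := 𝒜) (C n)
      (fun U hU x hx => ((hC3 n).1 U hU).1 x hx)
    obtain ⟨ℱ, hℱ1, hℱ2⟩ := h 𝒰 fun n => (isCov_V h𝒜 (𝒰 n)).1 (by rw [← h𝒰]; exact hC3 n)
    refine ⟨encQ fun n => encC (ℱ n), isSeq_encQ _, fun n hn F hF => ?_, fun x hx => ?_⟩
    · obtain ⟨n, rfl⟩ := (mem_omz n).1 hn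
      rw [app_encQ] at hF
      subst hF
      refine ⟨(isFin_V _).2 ?_, fun C' hC' W hW => ?_⟩
      · refine ((hℱ1 n).1.image encS).subset ?_
        intro z hz
        obtain ⟨U, hU, rfl⟩ := (mem_encC _ z).1 hz
        exact ⟨U, hU, rfl⟩
      · obtain rfl := hC2 n C' hC'
        obtain ⟨W, hW', rfl⟩ := (mem_encC _ W).1 hW
        rw [h𝒰]
        exact (encS_mem_encC h𝒜 _ W).2 ((hℱ1 n).2 hW')
    · obtain ⟨p, rfl⟩ := (pt_V x).1 hx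
      have hp : p ∈ ⋃ n, starOf (⋃₀ ℱ n) (𝒰 n) := by rw [hℱ2]; exact Set.mem_univ p
      obtain ⟨n, U, ⟨hU, q, hqU, W, hW, hqW⟩, hpU⟩ := Set.mem_iUnion.1 hp
      refine ⟨num n, (mem_omz _).2 ⟨n, rfl⟩, C n, encC (ℱ n), encS U, encS W, hC1 n,
        (app_encQ _ n _).2 rfl, ?_, (pt_mem_encS h𝒜 U p).2 hpU, (encS_mem_encC h𝒜 _ W).2 hW,
        (meet_V h𝒜 U W).2 ⟨q, hqU, hqW⟩⟩
      show encS U ∈ C n
      rw [h𝒰]
      exact (encS_mem_encC h𝒜 _ U).2 hU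

end PM
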