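import Pool.Agent.H71.HM.Nm
import Pool.Agent.H71.PM.Defs

/-!
# HV: properties of the quotients `MU U` which have a Boolean value

`HV P`: there is `b : B` with `b ∈ U ↔ P U` for all ultrafilters `U`. This holds for all first-order
properties of names: use `HV.mem`, `HV.and`, `HV.all`, ....
-/

set_option autoImplicit false

namespace PM

open BV PK HM

variable {B : Type} [CompleteBooleanAlgebra B]

/-- the property `P` of ultrafilters (statement on the quotient) has a Boolean value -/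
def HV (P : UF B → Prop) : Prop := ∃ b : B, ∀ U : UF B, b ∈ U ↔ P U

namespace HV

theorem mem (x y : BSet B) : HV fun U : UF B => MU.E U (MU.mk U x) (MU.mk U y) :=
  ⟨bmem x y, fun _ => Iff.rfl⟩

theorem eq (x y : BSet B) : HV fun U : UF B => MU.mk U x = MU.mk U y :=
  ⟨beq x y, fun U => (MU.mk_eq_iff U x y).symm⟩

theorem elt (b : B) : HV fun U : UF B => b ∈ U := ⟨b, fun _ => Iff.rfl⟩

theorem const (p : Prop) : HV fun _ : UF B => p := by
  by_cases hp : p
  · exact ⟨⊤, fun U => ⟨fun _ => hp, fun _ => U.top_mem⟩⟩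
  · exact ⟨⊥, fun U => ⟨fun h => absurd h U.bot_notMem, fun h => absurd h hp⟩⟩

theorem imp {P Q : UF B → Prop} (hP : HV P) (hQ : HV Q) : HV fun U => P U → Q U := by
  obtain ⟨a, ha⟩ := hP
  obtain ⟨b, hb⟩ := hQ
  exact ⟨a ⇨ b, fun U => by rw [UF.himp_mem_iff, ha, hb]⟩

theorem and {P Q : UF B → Prop} (hP : HV P) (hQ : HV Q) : HV fun U => P U ∧ Q U := by
  obtain ⟨a, ha⟩ := hP
  obtain ⟨b, hb⟩ := hQ
  exact ⟨a ⊓ b, fun U => by rw [UF.inf_mem_iff, ha, hb]⟩

theorem or {P Q : UF B → Prop} (hP : HV P) (hQ : HV Q) : HV fun U => P U ∨ Q U := by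
  obtain ⟨a, ha⟩ := hP
  obtain ⟨b, hb⟩ := hQ
  exact ⟨a ⊔ b, fun U => by rw [UF.sup_mem_iff, ha, hb]⟩

theorem not {P : UF B → Prop} (hP : HV P) : HV fun U => ¬ P U := by
  obtain ⟨a, ha⟩ := hP
  exact ⟨aᶜ, fun U => by rw [UF.compl_mem_iff, ha]⟩

theorem iff {P Q : UF B → Prop} (hP : HV P) (hQ : HV Q) : HV fun U => (P U ↔ Q U) := by
  obtain ⟨a, ha⟩ := (hP.imp hQ).and (hQ.imp hP)
  exact ⟨a, fun U => (ha U).trans iff_def.symm⟩

theorem all {P : ∀ U : UF B, MU U → Prop} (h : ∀ x : BSet B, HV fun U => P U (MU.mk U x)) :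
    HV fun U => ∀ m : MU U, P U m := by
  choose f hf using h
  exact ⟨⨅ x, f x, fun U => los_iInf (ext_of_los fun U x => hf x U) U fun x => hf x U⟩

theorem ex {P : ∀ U : UF B, MU U → Prop} (h : ∀ x : BSet B, HV fun U => P U (MU.mk U x)) :
    HV fun U => ∃ m : MU U, P U m := by
  choose f hf using h
  exact ⟨⨆ x, f x, fun U => los_iSup (ext_of_los fun U x => hf x U) U fun x => hf x U⟩

end HV

/-! ## Rules -/

section Rules

variable {P : UF B → Prop}

/-- a supremum can be decided (in the presence of a side condition `b`) -/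
theorem HV.sup (h : HV P) {ι : Sort*} (c : ι → B) (b : B)
    (hc : ∀ i (V : UF B), b ∈ V → c i ∈ V → P V) (V : UF B) (hb : b ∈ V)
    (hV : (⨆ i, c i) ∈ V) : P V := by
  obtain ⟨d, hd⟩ := h
  have h1 : (⨆ i, c i) ≤ b ⇨ d := by
    refine iSup_le fun i => UF.le_of_forall fun U hU => ?_
    rw [UF.himp_mem_iff]
    exact fun hbU => (hd U).2 (hc i U hbU hU)
  have h2 := V.mem_of_le hV h1
  rw [UF.himp_mem_iff] at h2
  exact (hd V).1 (h2 hb)

/-- to prove a property for all elements of the value of a name it is enough to prove it for the names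
which occur in it -/
theorem ball_mk {ι : Type} {A : ι → BSet B} {a : ι → B} {Q : ∀ U : UF B, MU U → Prop}
    (hQ : ∀ x : BSet B, HV fun U => Q U (MU.mk U x)) (b : B)
    (h : ∀ V : UF B, b ∈ V → ∀ i, a i ∈ V → Q V (MU.mk V (A i))) (U : UF B) (hb : b ∈ U)
    (m : MU U) (hm : MU.E U m (MU.mk U (BSet.mk ι A a))) : Q U m := by
  choose f hf using hQ
  have hext : Ext f := ext_of_los fun U x => hf x U
  obtain ⟨z, rfl⟩ := MU.mk_surj U m
  rw [MU.E_mk, bmem_mk] at hm
  have h1 : (⨆ i, a i ⊓ beq z (A i)) ≤ b ⇨ f z := by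
    refine iSup_le fun i => ?_
    have h2 : a i ≤ b ⇨ f (A i) := UF.le_of_forall fun V hV => by
      rw [UF.himp_mem_iff]
      exact fun hbV => (hf (A i) V).2 (h V hbV i hV)
    rw [le_himp_iff]
    have h3 : a i ⊓ b ≤ f (A i) := le_himp_iff.1 h2
    have h4 : beq z (A i) ⊓ f (A i) ≤ f z := by
      rw [beq_symm]
      exact hext _ _
    refine le_trans (le_inf ?_ ?_) h4
    · exact inf_le_left.trans inf_le_right
    · exact le_trans (inf_le_inf_right b inf_le_left) h3
  have h5 := U.mem_of_le hm h1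
  rw [UF.himp_mem_iff] at h5
  exact (hf z U).1 (h5 hb)

/-- to prove a property for all elements of `ω` it is enough to prove it for the standard natural
numbers -/
theorem ball_w {Q : ∀ U : UF B, MU U → Prop}
    (hQ : ∀ x : BSet B, HV fun U => Q U (MU.mk U x)) (b : B)
    (h : ∀ V : UF B, b ∈ V → ∀ n : ℕ, Q V (nn V n)) (U : UF B) (hb : b ∈ U)
    (m : MU U) (hm : MU.E U m (om U)) : Q U m := by
  choose f hf using hQ
  refine ball_ck' (f := f) (P := Q) (fun U x => hf x U) Ordinal.omega0 b ?_ U hb m hm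
  intro V hV β hβ
  obtain ⟨n, rfl⟩ := Ordinal.lt_omega0.1 hβ
  exact h V hV n

/-- maximum principle -/
theorem exists_name {Q : ∀ U : UF B, MU U → Prop}
    (hQ : ∀ x : BSet B, HV fun U => Q U (MU.mk U x)) (b : B)
    (h : ∀ V : UF B, b ∈ V → ∃ m, Q V m) : ∃ x : BSet B, ∀ V : UF B, b ∈ V → Q V (MU.mk V x) := by
  choose f hf using hQ
  have hext : Ext f := ext_of_los fun U x => hf x U
  obtain ⟨x, hx⟩ := exists_max hext
  refine ⟨x, fun V hV => (hf x V).1 ?_⟩
  rw [hx]
  exact (los_iSup hext V fun x => hf x V).2 (h V hV)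

/-- the Boolean value of `∃ m ∈ ω, Q m` is at most the supremum of the values of `Q n`, `n` standard -/
theorem bex_w {Q : ∀ U : UF B, MU U → Prop}
    (hQ : ∀ x : BSet B, HV fun U => Q U (MU.mk U x)) (b : B) (c : ℕ → B)
    (h : ∀ V : UF B, b ∈ V → ∀ n : ℕ, Q V (nn V n) → c n ∈ V) (U : UF B) (hb : b ∈ U)
    (hU : ∃ m, MU.E U m (om U) ∧ Q U m) : (⨆ n, c n) ∈ U := by
  by_contra hc
  obtain ⟨m, hm, hQm⟩ := hU
  refine ball_w (Q := fun U m => ¬ Q U m) (fun x => (hQ x).not) (b ⊓ (⨆ n, c n)ᶜ) ?_ U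
    (U.inf_mem hb (U.compl_mem_iff.2 hc)) m hm hQm
  intro V hV n hn
  rw [UF.inf_mem_iff] at hV
  exact V.compl_mem_iff.1 hV.2 (V.mem_of_le (h V hV.1 n hn) (le_iSup c n))

/-- elements of the value of a name -/
theorem mem_mk {ι : Type} {A : ι → BSet B} {a : ι → B} (U : UF B) (i : ι) (hi : a i ∈ U) :
    MU.E U (MU.mk U (A i)) (MU.mk U (BSet.mk ι A a)) := by
  rw [MU.E_mk]
  exact U.mem_of_le hi (vl_le_bmem (BSet.mk ι A a) i)

end Rules

/-! ## Values of the basic notions -/

theorem hv_om (x : BSet B) : HV fun U : UF B => MU.E U (MU.mk U x) (om U) :=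
  HV.mem x (chk B Ordinal.omega0)

theorem hv_isPair (x y z : BSet B) :
    HV fun U : UF B => IsPair (MU.E U) (MU.mk U x) (MU.mk U y) (MU.mk U z) := by
  unfold IsPair
  (repeat' first
    | exact HV.mem _ _ | exact HV.eq _ _ | exact HV.elt _
    | apply HV.iff | apply HV.and | apply HV.or | apply HV.not
    | (refine HV.ex fun _ => ?_)
    | apply HV.imp
    | (refine HV.all fun _ => ?_))

theorem hv_isOPair (x y z : BSet B) :
    HV fun U : UF B => IsOPair (MU.E U) (MU.mk U x) (MU.mk U y) (MU.mk U z) := by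
  unfold IsOPair IsPair
  (repeat' first
    | exact HV.mem _ _ | exact HV.eq _ _ | exact HV.elt _
    | apply HV.iff | apply HV.and | apply HV.or | apply HV.not
    | (refine HV.ex fun _ => ?_)
    | apply HV.imp
    | (refine HV.all fun _ => ?_))

theorem hv_app (x y z : BSet B) :
    HV fun U : UF B => App (MU.E U) (MU.mk U x) (MU.mk U y) (MU.mk U z) := by
  unfold App IsOPair IsPair
  (repeat' first
    | exact HV.mem _ _ | exact HV.eq _ _ | exact HV.elt _
    | apply HV.iff | apply HV.and | apply HV.or | apply HV.not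
    | (refine HV.ex fun _ => ?_)
    | apply HV.imp
    | (refine HV.all fun _ => ?_))

theorem hv_isFin (x : BSet B) : HV fun U : UF B => IsFin (MU.E U) (MU.mk U x) := by
  unfold IsFin
  (repeat' first
    | exact HV.mem _ _ | exact HV.eq _ _ | exact HV.elt _
    | apply HV.iff | apply HV.and | apply HV.or | apply HV.not
    | (refine HV.ex fun _ => ?_)
    | apply HV.imp
    | (refine HV.all fun _ => ?_))

end PM
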