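import Pool.Agent.H71.PM.Sm
import Pool.Agent.H71.PM.Dm

/-!
# MMAIN: a model of ZFC with a star-Menger `Ψ`-space of cardinality at least `𝔡`
-/

set_option autoImplicit false

namespace PM

open BV PK HM PSI

/-- from the Boolean algebra to the model -/
theorem exists_example (h : ∃ (B : Type) (_ : CompleteBooleanAlgebra B), Nontrivial B ∧
    ∃ (K Ω : Type) (A : K → ℕ → B) (c : Ω → ℕ → ℕ → B) (π : K → Ω), IsPsiAlg B K Ω A c π) :
    ∃ (M : Type 1) (E : M → M → Prop), IsZFC E ∧ ∃ w A, IsExample E w A := by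
  obtain ⟨B, iB, hn, K, Ω, A, c, π, h⟩ := h
  obtain ⟨U, -⟩ := UF.exists_mem (B := B) (a := ⊤) top_ne_bot
  exact ⟨MU U, MU.E U, isZFC U, om U, MU.mk U (An A),
    isExample_An A c π h (domLe_An A c π h) U⟩

end PM
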