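import Pool.Agent.H71.PM.HV
import Pool.Agent.H74.PSI.Alg

/-!
# NMS: names of functions, of the family `A` and of the dominating family
-/

set_option autoImplicit false

namespace PM

open BV PK HM PSI

variable {B : Type} [CompleteBooleanAlgebra B]

theorem app_mk {ι : Type} {X Y : ι → BSet B} {a : ι → B} (U : UF B) (i : ι) (hi : a i ∈ U) :
    App (MU.E U) (MU.mk U (BSet.mk ι (fun i => opr (X i) (Y i)) a)) (MU.mk U (X i))
      (MU.mk U (Y i)) :=
  ⟨_, isOPair_opr U (X i) (Y i), mem_mk (A := fun i => opr (X i) (Y i)) U i hi⟩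

/-- to prove a property for all pairs in the value of a name it is enough to prove it for the pairs of names
which occur in it -/
theorem ball_app {ι : Type} {X Y : ι → BSet B} {a : ι → B} {Q : ∀ U : UF B, MU U → MU U → Prop}
    (hQ : ∀ x y : BSet B, HV fun U => Q U (MU.mk U x) (MU.mk U y)) (b : B)
    (h : ∀ V : UF B, b ∈ V → ∀ i, a i ∈ V → Q V (MU.mk V (X i)) (MU.mk V (Y i))) (U : UF B)
    (hb : b ∈ U) (x y : MU U)
    (hxy : App (MU.E U) (MU.mk U (BSet.mk ι (fun i => opr (X i) (Y i)) a)) x y) : Q U x y := by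
  obtain ⟨p, hp, hpF⟩ := hxy
  refine ball_mk (Q := fun U p => ∀ x y, IsOPair (MU.E U) p x y → Q U x y) (fun p => ?_) b ?_ U hb p
    hpF x y hp
  · refine HV.all fun x => HV.all fun y => HV.imp (hv_isOPair p x y) (hQ x y)
  · intro V hV i hi x y hxy
    obtain ⟨rfl, rfl⟩ := isOPair_inj hxy (isOPair_opr V (X i) (Y i))
    exact h V hV i hi

/-- name of the function with the table of values `z` -/
noncomputable def fnn (z : ℕ → ℕ → B) : BSet B :=
  BSet.mk (ℕ × ℕ) (fun p => opr (chk B (p.1 : Ordinal.{0})) (chk B (p.2 : Ordinal.{0})))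
    fun p => z p.1 p.2

theorem app_fnn (U : UF B) (z : ℕ → ℕ → B) (n v : ℕ) :
    App (MU.E U) (MU.mk U (fnn z)) (nn U n) (nn U v) ↔ z n v ∈ U := by
  constructor
  · intro h
    refine ball_app (Q := fun U x y => x = nn U n → y = nn U v → z n v ∈ U)
      (fun x y => (HV.eq x (chk B (n : Ordinal.{0}))).imp
        ((HV.eq y (chk B (v : Ordinal.{0}))).imp (HV.elt _))) ⊤ ?_ U U.top_mem _ _ h rfl rfl
    rintro V - ⟨m, w⟩ hi h1 h2
    obtain rfl := nn_inj V h1
    obtain rfl := nn_inj V h2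
    exact hi
  · intro h
    exact app_mk (X := fun p : ℕ × ℕ => chk B (p.1 : Ordinal.{0}))
      (Y := fun p : ℕ × ℕ => chk B (p.2 : Ordinal.{0})) (a := fun p => z p.1 p.2) U (n, v) h

theorem hv_isFn (g : BSet B) : HV fun U : UF B => IsFn (MU.E U) (om U) (MU.mk U g) := by
  unfold IsFn
  refine HV.all fun n => (hv_om n).imp (HV.ex fun k => (hv_om k).and
    ((hv_app g n k).and (HV.all fun l => (hv_app g n l).imp (HV.eq l k))))

theorem isFn_fnn (z : ℕ → ℕ → B) (hz : ∀ n, Part (z n)) (U : UF B) :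
    IsFn (MU.E U) (om U) (MU.mk U (fnn z)) := by
  intro n hn
  refine ball_w (Q := fun U n => ∃ k, MU.E U k (om U) ∧ App (MU.E U) (MU.mk U (fnn z)) n k ∧
    ∀ l, App (MU.E U) (MU.mk U (fnn z)) n l → l = k) (fun n => ?_) ⊤ ?_ U U.top_mem n hn
  · exact HV.ex fun k => (hv_om k).and
      ((hv_app _ n k).and (HV.all fun l => (hv_app _ n l).imp (HV.eq l k)))
  · intro V _ n
    have hval : HV fun V : UF B => ∃ k, MU.E V k (om V) ∧ App (MU.E V) (MU.mk V (fnn z)) (nn V n) k ∧
        ∀ l, App (MU.E V) (MU.mk V (fnn z)) (nn V n) l → l = k :=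
      HV.ex fun k => (hv_om k).and
        ((hv_app _ (chk B (n : Ordinal.{0})) k).and
          (HV.all fun l => (hv_app _ (chk B (n : Ordinal.{0})) l).imp (HV.eq l k)))
    refine hval.sup (z n) ⊤ ?_ V V.top_mem (by rw [(hz n).top]; exact V.top_mem)
    intro v V _ hv
    refine ⟨nn V v, E_nn_om V v, (app_fnn V z n v).2 hv, fun l hl => ?_⟩
    refine ball_app (Q := fun U x y => x = nn U n → y = nn U v)
      (fun x y => (HV.eq x (chk B (n : Ordinal.{0}))).imp (HV.eq y (chk B (v : Ordinal.{0}))))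
      (z n v) ?_ V hv _ _ hl rfl
    rintro V hv ⟨m, w⟩ hi h1
    obtain rfl := nn_inj V h1
    by_cases hvw : v = w
    · rw [hvw]; rfl
    · exfalso
      have h2 := V.inf_mem hv hi
      rw [(hz m).disj v w hvw] at h2
      exact V.bot_notMem h2

/-- every function from `ω` to `ω` of a quotient is given by a table of values (in the presence of a
side condition `b`) -/
theorem exists_fnn (g : BSet B) : ∃ z : ℕ → ℕ → B, (∀ n, Part (z n)) ∧ ∀ (U : UF B),
    IsFn (MU.E U) (om U) (MU.mk U g) → ∀ n v, z n v ∈ U →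
      App (MU.E U) (MU.mk U g) (nn U n) (nn U v) := by
  obtain ⟨b, hb⟩ := hv_isFn g
  choose e he using fun n v : ℕ => hv_app g (chk B (n : Ordinal.{0})) (chk B (v : Ordinal.{0}))
  have h1 : ∀ n, b ≤ ⨆ v, e n v := by
    intro n
    refine UF.le_of_forall fun U hU => ?_
    obtain ⟨k, hk, hk1, -⟩ := (hb U).1 hU (nn U n) (E_nn_om U n)
    exact bex_w (Q := fun U k => App (MU.E U) (MU.mk U g) (nn U n) k)
      (fun k => hv_app g (chk B (n : Ordinal.{0})) k) ⊤ (e n) (fun V _ v hv => (he n v V).2 hv) U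
      U.top_mem ⟨k, hk, hk1⟩
  have h2 : ∀ n v w, v ≠ w → b ⊓ e n v ⊓ (b ⊓ e n w) = ⊥ := by
    intro n v w hvw
    refine UF.eq_bot_of_forall fun U hU => hvw ?_
    rw [UF.inf_mem_iff, UF.inf_mem_iff, UF.inf_mem_iff] at hU
    obtain ⟨k, -, -, hk⟩ := (hb U).1 hU.1.1 (nn U n) (E_nn_om U n)
    have h3 := hk _ ((he n v U).1 hU.1.2)
    have h4 := hk _ ((he n w U).1 hU.2.2)
    exact nn_inj U (h3.trans h4.symm)
  refine ⟨fun n v => (b ⊓ e n v) ⊔ (if v = 0 then bᶜ else ⊥), fun n => ⟨?_, ?_⟩, ?_⟩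
  · refine eq_top_iff.2 ?_
    rw [← sup_compl_eq_top (x := b)]
    refine sup_le ?_ ?_
    · calc b ≤ b ⊓ ⨆ v, e n v := le_inf le_rfl (h1 n)
        _ = ⨆ v, b ⊓ e n v := inf_iSup_eq _ _
        _ ≤ _ := iSup_mono fun v => le_sup_left
    · refine le_trans ?_ (le_iSup (fun v => (b ⊓ e n v) ⊔ (if v = 0 then bᶜ else ⊥)) 0)
      simp
  · intro v w hvw
    have key : ∀ v w : ℕ, b ⊓ e n v ⊓ (if w = 0 then bᶜ else ⊥) = ⊥ := by
      intro v w
      by_cases hw : w = 0
      · rw [if_pos hw, inf_right_comm, inf_compl_eq_bot, bot_inf_eq]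
      · rw [if_neg hw, inf_bot_eq]
    rw [inf_sup_left, inf_sup_right, inf_sup_right, h2 n v w hvw, key v w, inf_comm
      (if v = 0 then bᶜ else ⊥) (b ⊓ e n w), key w v]
    by_cases hv : v = 0
    · have hw : w ≠ 0 := fun h => hvw (hv.trans h.symm)
      simp [hw]
    · simp [hv]
  · intro U hU n v hv
    replace hU := (hb U).2 hU
    replace hv := U.sup_mem_iff.1 hv
    rcases hv with hv | hv
    · rw [UF.inf_mem_iff] at hv
      exact (he n v U).1 hv.2
    · exfalso
      by_cases h : v = 0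
      · rw [if_pos h, UF.compl_mem_iff] at hv
        exact hv hU
      · rw [if_neg h] at hv
        exact U.bot_notMem hv

/-- name of the family `A` -/
noncomputable def An {K : Type} (A : K → ℕ → B) : BSet B := BSet.mk K (fun x => rnm (A x)) fun _ => ⊤

theorem mem_An {K : Type} (A : K → ℕ → B) (U : UF B) (x : K) :
    MU.E U (MU.mk U (rnm (A x))) (MU.mk U (An A)) :=
  mem_mk (A := fun x => rnm (A x)) (a := fun _ => ⊤) U x U.top_mem

theorem ball_An {K : Type} (A : K → ℕ → B) {Q : ∀ U : UF B, MU U → Prop}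
    (hQ : ∀ x : BSet B, HV fun U => Q U (MU.mk U x)) (b : B)
    (h : ∀ V : UF B, b ∈ V → ∀ x, Q V (MU.mk V (rnm (A x)))) (U : UF B) (hb : b ∈ U)
    (m : MU U) (hm : MU.E U m (MU.mk U (An A))) : Q U m :=
  ball_mk hQ b (fun V hV i _ => h V hV i) U hb m hm

theorem hv_An {K : Type} (A : K → ℕ → B) (x : BSet B) :
    HV fun U : UF B => MU.E U (MU.mk U x) (MU.mk U (An A)) := HV.mem x _

end PM
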