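import Pool.Agent.H71.PM.Smu

/-!
# SM: `Ψ(A)` is star-Menger in the quotients
-/

set_option autoImplicit false

namespace PM

open BV PK HM PSI

variable {B : Type} [CompleteBooleanAlgebra B]

/-- name of the finite set `{u₀} ∪ {u y | y ∈ F}`, where `G S` is the value of `F = S` -/
noncomputable def fin {K : Type} (u0 : BSet B) (u : K → BSet B) (G : Finset K → B) : BSet B :=
  BSet.mk (Option K) (fun o => o.elim u0 u) fun o => o.elim ⊤ fun y => ⨆ S, ⨆ _ : y ∈ S, G S

theorem mem_fin_none {K : Type} (u0 : BSet B) (u : K → BSet B) (G : Finset K → B) (V : UF B) :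
    MU.E V (MU.mk V u0) (MU.mk V (fin u0 u G)) :=
  mem_mk (A := fun o : Option K => o.elim u0 u)
    (a := fun o : Option K => o.elim ⊤ fun y => ⨆ S, ⨆ _ : y ∈ S, G S) V none V.top_mem

theorem mem_fin_some {K : Type} (u0 : BSet B) (u : K → BSet B) (G : Finset K → B) (V : UF B)
    (S : Finset K) (hS : G S ∈ V) (y : K) (hy : y ∈ S) :
    MU.E V (MU.mk V (u y)) (MU.mk V (fin u0 u G)) :=
  mem_mk (A := fun o : Option K => o.elim u0 u)
    (a := fun o : Option K => o.elim ⊤ fun y => ⨆ S, ⨆ _ : y ∈ S, G S) V (some y)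
    (V.mem_of_le hS (le_trans (le_iSup (fun _ : y ∈ S => G S) hy)
      (le_iSup (fun S => ⨆ _ : y ∈ S, G S) S)))

theorem isFin_fin {K : Type} (u0 : BSet B) (u : K → BSet B) (G : Finset K → B)
    (hG : (⨆ S, G S) = ⊤) (hG' : ∀ S S', S ≠ S' → G S ⊓ G S' = ⊥) (V : UF B) :
    IsFin (MU.E V) (MU.mk V (fin u0 u G)) := by
  classical
  refine (hv_isFin (fin u0 u G)).sup G ⊤ ?_ V V.top_mem (by rw [hG]; exact V.top_mem)
  intro S V _ hS
  refine isFin_of_list V _ (MU.mk V u0 :: S.toList.map fun y => MU.mk V (u y)) fun z => ?_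
  constructor
  · intro hz
    rw [List.mem_cons, List.mem_map]
    have hval : ∀ z : BSet B, HV fun V : UF B => MU.mk V z = MU.mk V u0 ∨
        ∃ y ∈ S.toList, MU.mk V (u y) = MU.mk V z := by
      intro z
      refine (HV.eq z u0).or ?_
      have h : ∀ l : List K, HV fun V : UF B => ∃ y ∈ l, MU.mk V (u y) = MU.mk V z := by
        intro l
        induction l with
        | nil =>
          obtain ⟨c, hc⟩ := HV.const (B := B) False
          exact ⟨c, fun V => (hc V).trans ⟨fun h => h.elim, fun ⟨y, hy, _⟩ =>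
            List.not_mem_nil hy⟩⟩
        | cons a l ih =>
          obtain ⟨c, hc⟩ := (HV.eq (u a) z).or ih
          refine ⟨c, fun V => (hc V).trans ?_⟩
          constructor
          · rintro (h | ⟨y, hy, h⟩)
            · exact ⟨a, List.mem_cons_self, h⟩
            · exact ⟨y, List.mem_cons_of_mem a hy, h⟩
          · rintro ⟨y, hy, h⟩
            rcases List.mem_cons.1 hy with rfl | hy
            · exact Or.inl h
            · exact Or.inr ⟨y, hy, h⟩
      exact h S.toList
    refine ball_mk (Q := fun V z => z = MU.mk V u0 ∨ ∃ y ∈ S.toList, MU.mk V (u y) = z) hval (G S)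
      ?_ V hS z hz
    intro V hV i hi
    rcases i with _ | y
    · exact Or.inl rfl
    · refine Or.inr ⟨y, ?_, rfl⟩
      rw [Finset.mem_toList]
      by_contra hy
      have h1 : (⨆ S', ⨆ _ : y ∈ S', G S') ⊓ G S = ⊥ := by
        rw [iSup_inf_eq, iSup_eq_bot]
        intro S'
        rw [iSup_inf_eq, iSup_eq_bot]
        intro hyS'
        exact hG' S' S fun h => hy (h ▸ hyS')
      have h2 := V.inf_mem hi hV
      rw [show ((some y : Option K).elim ⊤ fun y => ⨆ S, ⨆ _ : y ∈ S, G S) =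
        ⨆ S', ⨆ _ : y ∈ S', G S' from rfl, h1] at h2
      exact V.bot_notMem h2
  · intro hz
    rcases List.mem_cons.1 hz with rfl | hz
    · exact mem_fin_none u0 u G V
    · obtain ⟨y, hy, rfl⟩ := List.mem_map.1 hz
      exact mem_fin_some u0 u G V S hS y (Finset.mem_toList.1 hy)

theorem hv_finSub (s t n : BSet B) :
    HV fun V : UF B => FinSub (MU.E V) (MU.mk V s) (MU.mk V t) (MU.mk V n) := by
  unfold FinSub
  exact HV.all fun F => (hv_app t n F).imp ((hv_isFin F).and (HV.all fun C => (hv_app s n C).imp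
    (HV.all fun W => (HV.mem W F).imp (HV.mem W C))))

theorem hv_inStar (s t n x : BSet B) :
    HV fun V : UF B => InStar (MU.E V) (MU.mk V s) (MU.mk V t) (MU.mk V n) (MU.mk V x) := by
  unfold InStar Meet
  exact HV.ex fun C => HV.ex fun F => HV.ex fun U => HV.ex fun W => (hv_app s n C).and
    ((hv_app t n F).and ((HV.mem U C).and ((HV.mem x U).and ((HV.mem W F).and (HV.ex fun y =>
      (HV.mem y U).and (HV.mem y W))))))

theorem hv_bex_inStar (s t x : BSet B) :
    HV fun V : UF B => ∃ n, MU.E V n (om V) ∧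
      InStar (MU.E V) (MU.mk V s) (MU.mk V t) n (MU.mk V x) :=
  HV.ex fun n => (hv_om n).and (hv_inStar s t n x)

/-- `Ψ(A)` is star-Menger -/
theorem starMenger_An {K Ω : Type} (A : K → ℕ → B) (c : Ω → ℕ → ℕ → B) (π : K → Ω)
    (h : IsPsiAlg B K Ω A c π) (V : UF B) : StarMenger (MU.E V) (om V) (MU.mk V (An A)) := by
  classical
  intro s hs
  obtain ⟨s, rfl⟩ := MU.mk_surj V s
  obtain ⟨b, hb⟩ := hv_isCovSeq (An A) s
  -- members of the covers
  choose u0 hu0 using fun n : ℕ => exists_u (An A) s (chk B (n : Ordinal.{0})) n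
    (fun V => Or.inl (E_nn_om V n))
  choose u hu using fun (x : K) (n : ℕ) => exists_u (An A) s (rnm (A x)) n
    (fun V => Or.inr (mem_An A V x))
  choose f hf hfu using fun (x : K) (n : ℕ) => exists_f A s (u x n) x n (hu x n)
  obtain ⟨F, hF1, hF2, hF3⟩ := h.catching f hf
  let T : ℕ → BSet B := fun n => fin (u0 n) (fun y => u y n) (F n)
  refine ⟨MU.mk V (sqn T), isSeq_sqn T V, fun n hn => ?_, fun x hx => ?_⟩
  · -- finite subsets
    refine ball_w (Q := fun V n => FinSub (MU.E V) (MU.mk V s) (MU.mk V (sqn T)) n)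
      (fun n => hv_finSub s (sqn T) n) b ?_ V ((hb V).2 hs) n hn
    intro V hV n G hG
    rw [app_sqn] at hG
    subst hG
    refine ⟨isFin_fin _ _ _ (hF1 n) (hF2 n) V, fun C hC W hW => ?_⟩
    obtain ⟨C0, hC0, hC0'⟩ := ((hb V).1 hV).1 (nn V n) (E_nn_om V n)
    obtain rfl := hC0' C hC
    clear hC0 hC0'
    obtain ⟨C, rfl⟩ := MU.mk_surj V C
    obtain ⟨d, hd⟩ := hv_app s (chk B (n : Ordinal.{0})) C
    refine ball_mk (Q := fun V W => MU.E V W (MU.mk V C)) (fun W => HV.mem W C) (b ⊓ d) ?_ V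
      (V.inf_mem hV ((hd V).2 hC)) W hW
    intro V hV i _
    rw [UF.inf_mem_iff] at hV
    have hcov := (hb V).1 hV.1
    obtain ⟨C0, hC0, hC0'⟩ := hcov.1 (nn V n) (E_nn_om V n)
    have hC : MU.mk V C = C0 := hC0' _ ((hd V).1 hV.2)
    rcases i with _ | y
    · obtain ⟨C1, hC1, h1, -⟩ := hu0 n V hcov
      rw [hC, ← hC0' C1 hC1]
      exact h1
    · obtain ⟨C1, hC1, h1, -⟩ := hu y n V hcov
      rw [hC, ← hC0' C1 hC1]
      exact h1
  · rcases hx with hx | hx
    · -- the points of `ω`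
      refine ball_w (Q := fun V x => ∃ n, MU.E V n (om V) ∧
        InStar (MU.E V) (MU.mk V s) (MU.mk V (sqn T)) n x) (fun x => hv_bex_inStar s (sqn T) x) b ?_
        V ((hb V).2 hs) x hx
      intro V hV n
      obtain ⟨C, hC, h1, h2⟩ := hu0 n V ((hb V).1 hV)
      exact ⟨nn V n, E_nn_om V n, C, MU.mk V (T n), MU.mk V (u0 n), MU.mk V (u0 n), hC,
        (app_sqn T V n _).2 rfl, h1, h2, mem_fin_none _ _ _ V, nn V n, h2, h2⟩
    · -- the points of `A`
      refine ball_An A (Q := fun V x => ∃ n, MU.E V n (om V) ∧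
        InStar (MU.E V) (MU.mk V s) (MU.mk V (sqn T)) n x) (fun x => hv_bex_inStar s (sqn T) x) b ?_
        V ((hb V).2 hs) x hx
      intro V hV x
      have hval : HV fun V : UF B => ∃ n, MU.E V n (om V) ∧
          InStar (MU.E V) (MU.mk V s) (MU.mk V (sqn T)) n (MU.mk V (rnm (A x))) :=
        hv_bex_inStar s (sqn T) (rnm (A x))
      refine hval.sup _ b ?_ V hV (by rw [hF3 x]; exact V.top_mem)
      intro n V hV h1
      refine hval.sup _ b ?_ V hV h1
      intro S V hV h2
      rw [UF.inf_mem_iff] at h2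
      obtain ⟨hS, h2⟩ := h2
      have hcov := (hb V).1 hV
      obtain ⟨C, hC, h3, h4⟩ := hu x n V hcov
      rcases V.sup_mem_iff.1 h2 with h5 | h5
      · have hxS : x ∈ S := by
          by_contra hx
          simp only [hx, iSup_false] at h5
          exact V.bot_notMem h5
        exact ⟨nn V n, E_nn_om V n, C, MU.mk V (T n), MU.mk V (u x n), MU.mk V (u x n), hC,
          (app_sqn T V n _).2 rfl, h3, h4, mem_fin_some _ _ _ V S hS x hxS,
          MU.mk V (rnm (A x)), h4, h4⟩
      · refine hval.sup _ (b ⊓ F n S) ?_ V (V.inf_mem hV hS) h5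
        intro y V hV h5
        refine hval.sup _ (b ⊓ F n S) ?_ V hV h5
        intro hyS V hV h5
        refine hval.sup _ (b ⊓ F n S) ?_ V hV h5
        intro k V hV h6
        rw [UF.inf_mem_iff, UF.inf_mem_iff, UF.inf_mem_iff] at h6
        rw [UF.inf_mem_iff] at hV
        obtain ⟨⟨⟨hxk, hyk⟩, hfx⟩, hfy⟩ := h6
        have hcov := (hb V).1 hV.1
        obtain ⟨C, hC, h3, h4⟩ := hu x n V hcov
        have key : ∀ z : K, A z k ∈ V → (⨆ v, ⨆ _ : v ≤ k, f z n v) ∈ V →
            MU.E V (nn V k) (MU.mk V (u z n)) := by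
          intro z hzk hfz
          have hval2 : HV fun V : UF B => MU.E V (nn V k) (MU.mk V (u z n)) :=
            HV.mem (chk B (k : Ordinal.{0})) (u z n)
          refine hval2.sup _ (b ⊓ A z k) ?_ V (V.inf_mem hV.1 hzk) hfz
          intro v V hV hfz
          refine hval2.sup _ (b ⊓ A z k) ?_ V hV hfz
          intro hvk V hV hfz
          rw [UF.inf_mem_iff] at hV
          exact hfu z n V ((hb V).1 hV.1) v k hfz hvk hV.2
        exact ⟨nn V n, E_nn_om V n, C, MU.mk V (T n), MU.mk V (u x n), MU.mk V (u y n), hC,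
          (app_sqn T V n _).2 rfl, h3, h4, mem_fin_some _ _ _ V S hV.2 y hyS,
          nn V k, key x hxk hfx, key y hyk hfy⟩

/-- the theorem for the quotients -/
theorem isExample_An {K Ω : Type} (A : K → ℕ → B) (c : Ω → ℕ → ℕ → B) (π : K → Ω)
    (h : IsPsiAlg B K Ω A c π) (hdom : ∀ V : UF B, DomLe (MU.E V) (om V) (MU.mk V (An A)))
    (V : UF B) : IsExample (MU.E V) (om V) (MU.mk V (An A)) :=
  ⟨isOmega_om V, isAD_An A h.inf h.ad V, starMenger_An A c π h V, hdom V⟩

end PM
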