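import Pool.Agent.H71.PM.Ad
import Pool.Agent.H71.HM.Mul

/-!
# SMU: members of the covers, given by names
-/

set_option autoImplicit false

namespace PM

open BV PK HM PSI

variable {B : Type} [CompleteBooleanAlgebra B]

theorem exists_part (g : ℕ → B) : ∃ f : ℕ → B, Part f ∧ ∀ v, f v ⊓ (⨆ w, g w) ≤ g v := by
  set d : ℕ → B := fun v => g v ⊓ (⨆ j : Set.Iio v, g j)ᶜ with hd
  have hsup : (⨆ v, d v) = ⨆ v, g v := iSup_first g
  have hdd : ∀ v w, v < w → d v ⊓ d w = ⊥ := by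
    intro v w hvw
    rw [eq_bot_iff]
    have h1 : g v ≤ ⨆ j : Set.Iio w, g j := le_iSup (fun j : Set.Iio w => g j) ⟨v, hvw⟩
    calc d v ⊓ d w ≤ g v ⊓ (⨆ j : Set.Iio w, g j)ᶜ := inf_le_inf inf_le_left inf_le_right
      _ ≤ (⨆ j : Set.Iio w, g j) ⊓ (⨆ j : Set.Iio w, g j)ᶜ := inf_le_inf_right _ h1
      _ = ⊥ := inf_compl_eq_bot
  have hdd' : ∀ v w, v ≠ w → d v ⊓ d w = ⊥ := by
    intro v w hvw
    rcases lt_or_gt_of_ne hvw with h | h
    · exact hdd v w h
    · rw [inf_comm]; exact hdd w v h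
  have hds : ∀ v, d v ≤ ⨆ v, g v := fun v => inf_le_left.trans (le_iSup g v)
  have key : ∀ v w : ℕ, d v ⊓ (if w = 0 then (⨆ v, g v)ᶜ else ⊥) = ⊥ := by
    intro v w
    by_cases hw : w = 0
    · rw [if_pos hw, eq_bot_iff]
      exact (inf_le_inf_right _ (hds v)).trans (le_of_eq inf_compl_eq_bot)
    · rw [if_neg hw, inf_bot_eq]
  refine ⟨fun v => d v ⊔ (if v = 0 then (⨆ v, g v)ᶜ else ⊥), ⟨?_, ?_⟩, ?_⟩
  · rw [eq_top_iff, ← sup_compl_eq_top (x := ⨆ v, g v)]
    refine sup_le ?_ ?_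
    · rw [← hsup]
      exact iSup_mono fun v => le_sup_left
    · refine le_trans ?_ (le_iSup (fun v => d v ⊔ (if v = 0 then (⨆ v, g v)ᶜ else ⊥)) 0)
      simp
  · intro v w hvw
    rw [inf_sup_left, inf_sup_right, inf_sup_right, hdd' v w hvw, key v w, inf_comm
      (if v = 0 then (⨆ v, g v)ᶜ else ⊥) (d w), key w v]
    by_cases hv : v = 0
    · have hw : w ≠ 0 := fun h => hvw (hv.trans h.symm)
      simp [hw]
    · simp [hv]
  · intro v
    rw [inf_sup_right]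
    refine sup_le (inf_le_left.trans inf_le_left) ?_
    by_cases hv : v = 0
    · rw [if_pos hv, compl_inf_eq_bot]
      exact bot_le
    · rw [if_neg hv, bot_inf_eq]
      exact bot_le

theorem hv_isOpn (A U : BSet B) :
    HV fun V : UF B => IsOpn (MU.E V) (om V) (MU.mk V A) (MU.mk V U) := by
  unfold IsOpn Pt
  exact (HV.all fun x => (HV.mem x U).imp ((hv_om x).or (HV.mem x A))).and
    (HV.all fun a => (HV.mem a A).imp ((HV.mem a U).imp (HV.ex fun m => (hv_om m).and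
      (HV.all fun n => (HV.mem n a).imp ((HV.mem m n).imp (HV.mem n U))))))

theorem hv_isCov (A C : BSet B) :
    HV fun V : UF B => IsCov (MU.E V) (om V) (MU.mk V A) (MU.mk V C) := by
  unfold IsCov Pt
  exact (HV.all fun x => (HV.mem x C).imp (hv_isOpn A x)).and
    (HV.all fun x => ((hv_om x).or (HV.mem x A)).imp (HV.ex fun U => (HV.mem U C).and (HV.mem x U)))

theorem hv_isSeq (s : BSet B) : HV fun V : UF B => IsSeq (MU.E V) (om V) (MU.mk V s) := by
  unfold IsSeq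
  exact HV.all fun n => (hv_om n).imp (HV.ex fun C => (hv_app s n C).and
    (HV.all fun D => (hv_app s n D).imp (HV.eq D C)))

theorem hv_isCovSeq (A s : BSet B) :
    HV fun V : UF B => IsCovSeq (MU.E V) (om V) (MU.mk V A) (MU.mk V s) := by
  unfold IsCovSeq
  exact (hv_isSeq s).and (HV.all fun n => (hv_om n).imp (HV.all fun C => (hv_app s n C).imp
    (hv_isCov A C)))

/-- a member of the `n`-th cover which contains the point `p` -/
theorem exists_u (A s p : BSet B) (n : ℕ)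
    (hp : ∀ V : UF B, Pt (MU.E V) (om V) (MU.mk V A) (MU.mk V p)) : ∃ u : BSet B, ∀ V : UF B,
      IsCovSeq (MU.E V) (om V) (MU.mk V A) (MU.mk V s) → ∃ C, App (MU.E V) (MU.mk V s) (nn V n) C ∧
        MU.E V (MU.mk V u) C ∧ MU.E V (MU.mk V p) (MU.mk V u) := by
  obtain ⟨b, hb⟩ := hv_isCovSeq A s
  obtain ⟨u, hu⟩ := exists_name (Q := fun V u => ∃ C, App (MU.E V) (MU.mk V s) (nn V n) C ∧
    MU.E V u C ∧ MU.E V (MU.mk V p) u) (fun u => HV.ex fun C =>
      (hv_app s (chk B (n : Ordinal.{0})) C).and ((HV.mem u C).and (HV.mem p u))) b (by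
    intro V hV
    obtain ⟨h1, h2⟩ := (hb V).1 hV
    obtain ⟨C, hC, -⟩ := h1 (nn V n) (E_nn_om V n)
    obtain ⟨U, hU, hpU⟩ := (h2 (nn V n) (E_nn_om V n) C hC).2 _ (hp V)
    exact ⟨U, C, hC, hU, hpU⟩)
  exact ⟨u, fun V hV => hu V ((hb V).2 hV)⟩

/-- names of bounds -/
theorem exists_f {K : Type} (A : K → ℕ → B) (s u : BSet B) (x : K) (n : ℕ) (hu : ∀ V : UF B,
      IsCovSeq (MU.E V) (om V) (MU.mk V (An A)) (MU.mk V s) →
      ∃ C, App (MU.E V) (MU.mk V s) (nn V n) C ∧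
        MU.E V (MU.mk V u) C ∧ MU.E V (MU.mk V (rnm (A x))) (MU.mk V u)) :
    ∃ f : ℕ → B, Part f ∧ ∀ V : UF B, IsCovSeq (MU.E V) (om V) (MU.mk V (An A)) (MU.mk V s) →
      ∀ v k : ℕ, f v ∈ V → v ≤ k → A x k ∈ V → MU.E V (nn V k) (MU.mk V u) := by
  obtain ⟨b, hb⟩ := hv_isCovSeq (An A) s
  have hg : ∀ v : ℕ, HV fun V : UF B => ∀ k, MU.E V k (MU.mk V (rnm (A x))) → ¬ MU.E V k (nn V v) →
      MU.E V k (MU.mk V u) := fun v => HV.all fun k => (HV.mem k _).imp
        ((HV.mem k (chk B (v : Ordinal.{0}))).not.imp (HV.mem k u))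
  choose g hg using hg
  obtain ⟨f, hf, hfg⟩ := exists_part g
  have h1 : b ≤ ⨆ v, g v := by
    refine UF.le_of_forall fun V hV => ?_
    have hcov := (hb V).1 hV
    obtain ⟨C, hC, huC, hxu⟩ := hu V hcov
    have hop := ((hcov.2 (nn V n) (E_nn_om V n) C hC).1 _ huC).2 _ (mem_An A V x) hxu
    have h2 := bex_w (Q := fun V m => ∀ k, MU.E V k (MU.mk V (rnm (A x))) → MU.E V m k →
      MU.E V k (MU.mk V u)) (fun m => HV.all fun k => (HV.mem k _).imp ((HV.mem m k).imp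
        (HV.mem k u))) ⊤ (fun m => g (m + 1)) ?_ V V.top_mem hop
    · exact V.mem_of_le h2 (iSup_le fun m => le_iSup g (m + 1))
    · intro V _ m hm
      refine (hg (m + 1) V).2 fun k hk => ?_
      obtain ⟨c, hc⟩ : HV fun V : UF B => ∀ k, MU.E V k (MU.mk V (rnm (A x))) →
          MU.E V (nn V m) k → MU.E V k (MU.mk V u) := HV.all fun k => (HV.mem k _).imp
            ((HV.mem (chk B (m : Ordinal.{0})) k).imp (HV.mem k u))
      refine ball_w (Q := fun V k => MU.E V k (MU.mk V (rnm (A x))) → ¬ MU.E V k (nn V (m + 1)) →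
        MU.E V k (MU.mk V u)) (fun k => (HV.mem k _).imp
        ((HV.mem k (chk B ((m + 1 : ℕ) : Ordinal.{0}))).not.imp (HV.mem k u))) c ?_ V ((hc V).2 hm) k
        (isReal_rnm V (A x) k hk) hk
      intro V hV k hk hkm
      refine (hc V).1 hV (nn V k) hk ?_
      rw [E_nn] at hkm ⊢
      omega
  refine ⟨f, hf, fun V hV v k hfv hvk hAk => ?_⟩
  have h2 : g v ∈ V := V.mem_of_le (V.inf_mem hfv (V.mem_of_le ((hb V).2 hV) h1)) (hfg v)
  refine (hg v V).1 h2 (nn V k) ((E_rnm V (A x) k).2 hAk) ?_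
  rw [E_nn]
  omega

/-! ## Sequences -/

/-- name of a sequence -/
noncomputable def sqn (F : ℕ → BSet B) : BSet B :=
  BSet.mk ℕ (fun n => opr (chk B (n : Ordinal.{0})) (F n)) fun _ => ⊤

theorem app_sqn (F : ℕ → BSet B) (U : UF B) (n : ℕ) (D : MU U) :
    App (MU.E U) (MU.mk U (sqn F)) (nn U n) D ↔ D = MU.mk U (F n) := by
  constructor
  · intro h
    refine ball_app (Q := fun U x y => x = nn U n → y = MU.mk U (F n))
      (fun x y => (HV.eq x (chk B (n : Ordinal.{0}))).imp (HV.eq y (F n))) ⊤ ?_ U U.top_mem _ _ h rfl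
    intro V _ m _ h1
    obtain rfl := nn_inj V h1
    rfl
  · rintro rfl
    exact app_mk (X := fun n : ℕ => chk B (n : Ordinal.{0})) (Y := F) (a := fun _ => ⊤) U n U.top_mem

theorem isSeq_sqn (F : ℕ → BSet B) (U : UF B) : IsSeq (MU.E U) (om U) (MU.mk U (sqn F)) := by
  intro n hn
  refine ball_w (Q := fun U n => ∃ C, App (MU.E U) (MU.mk U (sqn F)) n C ∧
    ∀ D, App (MU.E U) (MU.mk U (sqn F)) n D → D = C) (fun n => HV.ex fun C => (hv_app _ n C).and
    (HV.all fun D => (hv_app _ n D).imp (HV.eq D C))) ⊤ ?_ U U.top_mem n hn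
  intro V _ n
  exact ⟨MU.mk V (F n), (app_sqn F V n _).2 rfl, fun D hD => (app_sqn F V n D).1 hD⟩

/-! ## Finite sets -/

theorem exists_list (U : UF B) (l : List (MU U)) : ∃ s : MU U, ∀ z, MU.E U z s ↔ z ∈ l :=
  mul_list U l

theorem isFin_of_list (U : UF B) (X : MU U) (l : List (MU U)) (h : ∀ z, MU.E U z X ↔ z ∈ l) :
    IsFin (MU.E U) X := by
  intro F h0 h1
  have key : ∀ l' : List (MU U), (∀ z ∈ l', MU.E U z X) →
      ∃ A, MU.E U A F ∧ ∀ z, MU.E U z A ↔ z ∈ l' := by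
    intro l'
    induction l' with
    | nil =>
      intro _
      obtain ⟨e, he⟩ := exists_list U ([] : List (MU U))
      exact ⟨e, h0 e fun z hz => List.not_mem_nil ((he z).1 hz), he⟩
    | cons a l' ih =>
      intro hl'
      obtain ⟨A, hA, hA'⟩ := ih fun z hz => hl' z (List.mem_cons_of_mem a hz)
      obtain ⟨A', hA''⟩ := exists_list U (a :: l')
      refine ⟨A', h1 A a A' hA (hl' a List.mem_cons_self) fun z => ?_, hA''⟩
      rw [hA'', hA', List.mem_cons, or_comm]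
  obtain ⟨A, hA, hA'⟩ := key l fun z hz => (h z).2 hz
  rwa [MU.ext_E U X A fun z => (h z).trans (hA' z).symm]

end PM
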